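import Pool.Agent.H868.NR.Semi
import Pool.Graph.R_seed8.Y204.LF.Dual

/-!
The strings of the double line: symmetry of the blocks.
-/

namespace Pool.Agent.H868.NR

set_option maxHeartbeats 400000

open MvPolynomial
open Pool.Agent.Helper15K9.IC (R)
open Pool.Agent.TH61.SL (hc comp_mul hc_zero hc_hom comp_self comp_ne)
open Pool.Agent.W515.SLP (AnnP Deg annP_of_gt annP_of_homog)
open TH130CI (gor mem_gor gor_homog)

variable {K : Type*} [Field K]

lemma Fl_hg {J : Ideal (R K)} (hJ : Hg J) {x : R K} (hx : x.IsHomogeneous 1) (n : ℕ) :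
    Hg (Fl J x n) := by
  intro s hs e
  rw [mem_Fl] at hs ⊢
  obtain ⟨r, hr⟩ := hs
  have h1 := hJ _ hr e
  have hxj : (x ^ n).IsHomogeneous n := by
    have := hx.pow n
    rwa [one_mul] at this
  rw [map_sub, mul_comm (x ^ n) r, comp_mul hxj, mul_comm _ (x ^ n)] at h1
  exact ⟨_, h1⟩

/-- the double annihilator property -/
lemma dbl {φ : R K →ₗ[K] K} {D : ℕ} (hφ : Deg φ D) {x : R K} (hx : x.IsHomogeneous 1) {n e : ℕ}
    {s : R K} (hs : s.IsHomogeneous e) (he : e ≤ D)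
    (h : ∀ q : R K, q.IsHomogeneous (D - e) → x ^ n * q ∈ gor φ → φ (s * q) = 0) :
    s ∈ Fl (gor φ) x n := by
  classical
  by_contra hcon
  have hJ : Hg (gor φ) := gor_homog hφ
  have hF := Fl_hg hJ hx n
  let H : Submodule K (R K) := homogeneousSubmodule (Fin 3) K e
  let W : Submodule K H := ((Fl (gor φ) x n).restrictScalars K).comap H.subtype
  have hsW : (⟨s, hs⟩ : H) ∉ W := hcon
  obtain ⟨f, hf1, hf2⟩ := Submodule.exists_le_ker_of_notMem hsW
  have hcomp : ∀ y : R K, homogeneousComponent e y ∈ H := fun y =>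
    homogeneousComponent_isHomogeneous e y
  let χ : R K →ₗ[K] K := f ∘ₗ (LinearMap.codRestrict H (homogeneousComponent e) hcomp)
  have hχ : ∀ y, χ y = f ⟨homogeneousComponent e y, hcomp y⟩ := fun y => rfl
  have hχ0 : ∀ y ∈ Fl (gor φ) x n, χ y = 0 := by
    intro y hy
    rw [hχ]
    exact hf2 (show (⟨homogeneousComponent e y, hcomp y⟩ : H) ∈ W from hF y hy e)
  have hχdeg : Deg χ e := by
    intro j hj g hg
    rw [hχ]
    have h0 : (⟨homogeneousComponent e g, hcomp g⟩ : H) = 0 := by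
      apply Subtype.ext
      change homogeneousComponent e g = 0
      rw [homogeneousComponent_of_mem hg, if_neg (Ne.symm hj)]
    rw [h0, map_zero]
  obtain ⟨y, hy, hyχ⟩ := Pool.Agent.Y204.LF.repr_of_kill (φ := φ) (ψ := χ) (k := e) (m := D - e)
    (by rwa [Nat.sub_add_cancel he]) hχdeg (fun z hz => hχ0 z (le_Fl hz))
  have h1 : x ^ n * y ∈ gor φ := by
    rw [mem_gor]
    intro v
    have h2 := hyχ (x ^ n * v)
    rw [hχ0 _ (pow_mul_mem_Fl le_rfl v)] at h2
    rw [show x ^ n * y * v = y * (x ^ n * v) by ring]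
    exact h2.symm
  have h2 := h y hy h1
  apply hf1
  have h3 : χ s = f ⟨s, hs⟩ := by
    rw [hχ]
    congr 1
    apply Subtype.ext
    change homogeneousComponent e s = s
    exact comp_self hs
  rw [← h3, hyχ, mul_comm]
  exact h2

/-- the data of a double line `x = 0` and a line `m = 0` -/
structure ND (K : Type*) [Field K] where
  φ : R K →ₗ[K] K
  D : ℕ
  (x m w : R K)
  hφ : Deg φ D
  hx : x.IsHomogeneous 1
  hm : m.IsHomogeneous 1
  hw : w.IsHomogeneous 1
  h1 : x ^ 2 * m ∈ gor φ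
  h2 : ∀ s, x * m * s ∈ gor φ → s ∈ Fl (gor φ) x 1
  h3 : ∀ s, x ^ 2 * s ∈ gor φ → ∃ r, s - m * r ∈ gor φ
  h4 : ∀ s, x * s ∈ gor φ → ∃ r, s - x * m * r ∈ gor φ

namespace ND

variable (T : ND K)

/-- the ideal -/
noncomputable abbrev J : Ideal (R K) := gor T.φ

/-- the monomial `x ^ j w ^ k` vanishes in the associated graded algebra -/
def E (j k : ℕ) : Prop := T.x ^ j * T.w ^ k ∈ Fl T.J T.x (j + 1)

lemma hg : Hg T.J := gor_homog T.hφ

lemma xp (n : ℕ) : (T.x ^ n).IsHomogeneous n := by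
  have := T.hx.pow n
  rwa [one_mul] at this

lemma wp (n : ℕ) : (T.w ^ n).IsHomogeneous n := by
  have := T.hw.pow n
  rwa [one_mul] at this

lemma E_succ_left {j k : ℕ} (h : T.E j k) : T.E (j + 1) k := by
  have h1 := Fl_mul 1 h
  rw [pow_one, ← mul_assoc, ← pow_succ'] at h1
  exact h1

lemma E_succ_right {j k : ℕ} (h : T.E j k) : T.E j (k + 1) := by
  have h1 := Ideal.mul_mem_left _ T.w h
  rw [E, pow_succ]
  rwa [show T.x ^ j * (T.w ^ k * T.w) = T.w * (T.x ^ j * T.w ^ k) by ring]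

lemma E_left {j j' k : ℕ} (hj : j ≤ j') (h : T.E j k) : T.E j' k := by
  induction hj with
  | refl => exact h
  | step _ ih => exact T.E_succ_left ih

lemma E_right {j k k' : ℕ} (hk : k ≤ k') (h : T.E j k) : T.E j k' := by
  induction hk with
  | refl => exact h
  | step _ ih => exact T.E_succ_right ih

lemma E_large {j k : ℕ} (h : T.D < j + k) : T.E j k :=
  le_Fl (annP_of_gt T.hφ h ((T.xp j).mul (T.wp k)))

/-- forms are multiples of a power of `w` modulo `x`, `m` -/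
def Sp : Prop := ∀ (k : ℕ) (s : R K), s.IsHomogeneous k → ∃ (α : K) (r r' : R K),
  s = C α * T.w ^ k + T.x * r + T.m * r'

lemma xm_mem {n : ℕ} (hn : 2 ≤ n) (s : R K) : T.x ^ n * (T.m * s) ∈ T.J := by
  have e : T.x ^ n * (T.m * s) = (T.x ^ (n - 2) * s) * (T.x ^ 2 * T.m) := by
    have : T.x ^ n = T.x ^ (n - 2) * T.x ^ 2 := by rw [← pow_add, Nat.sub_add_cancel hn]
    rw [this]; ring
  rw [e]
  exact Ideal.mul_mem_left _ _ T.h1

/-- lifting of `w ^ k` to the kernel of `x ^ n` -/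
lemma exists_y {n k : ℕ} (h : T.E n k) : ∃ r y : R K, y = T.w ^ k - T.x * r ∧
    y.IsHomogeneous k ∧ T.x ^ n * y ∈ T.J := by
  obtain ⟨r, hr, hr0, hrJ⟩ := mem_Fl_hom T.hg T.hx ((T.xp n).mul (T.wp k)) h
  refine ⟨r, _, rfl, ?_, ?_⟩
  · rcases Nat.eq_zero_or_pos k with rfl | hk
    · rw [hr0 (by omega), mul_zero, sub_zero]
      exact T.wp 0
    · have h1 := T.hx.mul hr
      rw [show 1 + (n + k - (n + 1)) = k by omega] at h1
      exact (T.wp k).sub h1
  · rw [show T.x ^ n * (T.w ^ k - T.x * r) = T.x ^ n * T.w ^ k - T.x ^ (n + 1) * r by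
      rw [pow_succ]; ring]
    exact hrJ

/-- **Symmetry of the blocks.** -/
theorem block (hSp : T.Sp) {n a b : ℕ} (hn : 3 ≤ n) (ha : ∀ k, T.E n k ↔ a ≤ k)
    (hb : ∀ k, T.E (n - 1) k ↔ b ≤ k) (hab : a < b) : a + b + n = T.D + 2 := by
  have hn1 : T.x ^ n = T.x ^ (n - 1) * T.x := by rw [← pow_succ, Nat.sub_add_cancel (by omega)]
  have hval : ∀ (y : R K) (α : K) (k : ℕ) (r r' : R K), T.x ^ n * y ∈ T.J →
      T.φ (T.x ^ (n - 1) * y * (C α * T.w ^ k + T.x * r + T.m * r'))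
        = α * T.φ (T.x ^ (n - 1) * y * T.w ^ k) := by
    intro y α k r r' hy
    have e1 : T.φ (T.x ^ n * y * r) = 0 := hy r
    have e2 : T.φ (T.x ^ (n - 1) * (T.m * r') * y) = 0 := T.xm_mem (by omega) r' y
    have e : T.x ^ (n - 1) * y * (C α * T.w ^ k + T.x * r + T.m * r')
        = α • (T.x ^ (n - 1) * y * T.w ^ k) + T.x ^ n * y * r
          + T.x ^ (n - 1) * (T.m * r') * y := by
      rw [hn1, smul_eq_C_mul]; ring
    rw [e, map_add, map_add, e1, e2, map_smul, smul_eq_mul, add_zero, add_zero]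
  -- first inequality
  have hle1 : T.D + 2 ≤ a + b + n := by
    obtain ⟨r, y, hy, hyh, hyJ⟩ := T.exists_y ((ha a).2 le_rfl)
    have hnot : T.x ^ (n - 1) * y ∉ T.J := by
      intro h
      have h1 : T.E (n - 1) a := by
        rw [E, mem_Fl]
        refine ⟨r, ?_⟩
        rw [hy] at h
        rw [show T.x ^ (n - 1) * T.w ^ a - T.x ^ (n - 1 + 1) * r
          = T.x ^ (n - 1) * (T.w ^ a - T.x * r) by rw [pow_succ]; ring]
        exact h
      have := (hb a).1 h1
      omega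
    have hdeg : (T.x ^ (n - 1) * y).IsHomogeneous (n - 1 + a) := (T.xp _).mul hyh
    have hle : n - 1 + a ≤ T.D := by
      by_contra hlt
      exact hnot (annP_of_gt T.hφ (by omega) hdeg)
    obtain ⟨q, hq, hqne⟩ : ∃ q : R K, q.IsHomogeneous (T.D - (n - 1 + a)) ∧
        T.φ (T.x ^ (n - 1) * y * q) ≠ 0 := by
      by_contra hcon
      push Not at hcon
      exact hnot (annP_of_homog T.hφ hle hdeg hcon)
    obtain ⟨α, r1, r2, hq2⟩ := hSp _ q hq
    rw [hq2, hval y α _ r1 r2 hyJ] at hqne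
    have hne := right_ne_zero_of_mul hqne
    have hk : T.D - (n - 1 + a) < b := by
      by_contra hge
      push Not at hge
      have h1 := (hb _).2 hge
      rw [E, mem_Fl] at h1
      obtain ⟨r3, hr3⟩ := h1
      apply hne
      rw [Nat.sub_add_cancel (by omega : 1 ≤ n)] at hr3
      have e : T.x ^ (n - 1) * y * T.w ^ (T.D - (n - 1 + a))
          = (T.x ^ (n - 1) * T.w ^ (T.D - (n - 1 + a)) - T.x ^ n * r3) * y
            + T.x ^ n * y * r3 := by ring
      rw [e, map_add, hr3 y, hyJ r3, add_zero]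
    omega
  -- second inequality
  have hle2 : a + b + n ≤ T.D + 2 := by
    obtain ⟨r, y, hy, hyh, hyJ⟩ := T.exists_y ((ha (b - 1)).2 (by omega))
    have hnot : T.x ^ (n - 1) * y ∉ Fl T.J T.x n := by
      intro h
      have h1 : T.E (n - 1) (b - 1) := by
        rw [mem_Fl] at h
        obtain ⟨r4, hr4⟩ := h
        rw [E, mem_Fl]
        refine ⟨r + r4, ?_⟩
        rw [hy] at hr4
        rw [Nat.sub_add_cancel (by omega : 1 ≤ n)]
        rw [show T.x ^ (n - 1) * T.w ^ (b - 1) - T.x ^ n * (r + r4)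
          = T.x ^ (n - 1) * (T.w ^ (b - 1) - T.x * r) - T.x ^ n * r4 by rw [hn1]; ring]
        exact hr4
      have := (hb _).1 h1
      omega
    have hdeg : (T.x ^ (n - 1) * y).IsHomogeneous (n - 1 + (b - 1)) := (T.xp _).mul hyh
    have hle : n - 1 + (b - 1) ≤ T.D := by
      by_contra hlt
      exact hnot (le_Fl (annP_of_gt T.hφ (by omega) hdeg))
    obtain ⟨q, hq, hqJ, hqne⟩ : ∃ q : R K, q.IsHomogeneous (T.D - (n - 1 + (b - 1))) ∧
        T.x ^ n * q ∈ T.J ∧ T.φ (T.x ^ (n - 1) * y * q) ≠ 0 := by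
      by_contra hcon
      push Not at hcon
      exact hnot (dbl T.hφ T.hx hdeg hle hcon)
    obtain ⟨α, r1, r2, hq2⟩ := hSp _ q hq
    rw [hq2, hval y α _ r1 r2 hyJ] at hqne
    have hα := left_ne_zero_of_mul hqne
    have hk : T.E n (T.D - (n - 1 + (b - 1))) := by
      rw [E, mem_Fl]
      refine ⟨-(C α⁻¹ * r1), ?_⟩
      rw [hq2] at hqJ
      have e1 : (C α⁻¹ : R K) * C α = 1 := by rw [← C_mul, inv_mul_cancel₀ hα, C_1]
      have e : T.x ^ n * T.w ^ (T.D - (n - 1 + (b - 1))) - T.x ^ (n + 1) * -(C α⁻¹ * r1)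
          = C α⁻¹ * (T.x ^ n * (C α * T.w ^ (T.D - (n - 1 + (b - 1))) + T.x * r1 + T.m * r2))
            - C α⁻¹ * (T.x ^ n * (T.m * r2)) := by
        rw [pow_succ]
        linear_combination (-(T.x ^ n * T.w ^ (T.D - (n - 1 + (b - 1))))) * e1
      rw [e]
      exact Ideal.sub_mem _ (Ideal.mul_mem_left _ _ hqJ)
        (Ideal.mul_mem_left _ _ (T.xm_mem (by omega) r2))
    have := (ha _).1 hk
    omega
  omega

end ND

end Pool.Agent.H868.NR
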