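import Pool.Agent.H868.NR.StepS
import Pool.Agent.H868.RC.Build

/-!
A good linear form exists if the ideal is a complete intersection with a non-reduced cubic.
-/

namespace Pool.Agent.H868.NR

set_option maxHeartbeats 400000

open MvPolynomial
open Pool.Agent.Helper15K9.IC (R RT evt evt_C evt_X evt_gl gl exists_kernel Ph eval_Ph BH BH_gl)
open Pool.Agent.TH61.SL (hc comp_mul hc_zero hc_hom comp_self comp_ne)
open Pool.Agent.W515.SLP (AnnP Deg annP_of_gt annP_of_homog)
open Pool.Agent.W695.SLP (Good lf exists_good exists_lf descent ex_self lf_hom Kills)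
open TH130CI (gor mem_gor gor_homog)

section

variable {K : Type*} [Field K]

/-- the cross product -/
def cr (a b : Fin 3 → K) : Fin 3 → K :=
  ![a 1 * b 2 - a 2 * b 1, a 2 * b 0 - a 0 * b 2, a 0 * b 1 - a 1 * b 0]

lemma cr_ne {a b : Fin 3 → K} (ha : a ≠ 0) (h : ∀ s : K, b ≠ s • a) : cr a b ≠ 0 := by
  intro h0
  have e0 := congrFun h0 0
  have e1 := congrFun h0 1
  have e2 := congrFun h0 2
  simp only [cr, Matrix.cons_val_zero, Matrix.cons_val_one, Matrix.cons_val, Pi.zero_apply] at e0 e1 e2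
  obtain ⟨j, hj⟩ : ∃ j, a j ≠ 0 := by
    by_contra hcon
    push Not at hcon
    exact ha (funext hcon)
  apply h (b j / a j)
  funext k
  rw [Pi.smul_apply, smul_eq_mul, div_mul_eq_mul_div, eq_div_iff hj]
  fin_cases j <;> fin_cases k <;> simp only [Fin.zero_eta, Fin.mk_one, Fin.reduceFinMk] <;>
    first
    | ring1
    | linear_combination e0
    | linear_combination e1
    | linear_combination e2
    | linear_combination -e0
    | linear_combination -e1
    | linear_combination -e2

/-- Cramer's rule -/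
lemma cramer (a b p : Fin 3 → K) (j : Fin 3) :
    C (eval p (lf (cr a b))) * X j = C (cr b p j) * lf a + C (cr p a j) * lf b
      + C (cr a b j) * lf p := by
  simp only [lf, Fin.sum_univ_three, cr, map_add, map_mul, eval_C, eval_X, Matrix.cons_val_zero,
    Matrix.cons_val_one, Matrix.cons_val]
  fin_cases j <;> simp <;> ring

/-- forms are multiples of a power of `w` modulo `x`, `m` -/
lemma sp_of_det {a b p : Fin 3 → K} (h : eval p (lf (cr a b)) ≠ 0) (k : ℕ) (s : R K)
    (hs : s.IsHomogeneous k) : ∃ (α : K) (r r' : R K),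
      s = C α * lf p ^ k + lf a * r + lf b * r' := by
  classical
  obtain ⟨Δ, hΔ⟩ : ∃ Δ, Δ = eval p (lf (cr a b)) := ⟨_, rfl⟩
  rw [← hΔ] at h
  let c : Fin 3 → K := fun j => cr a b j / Δ
  let I : Ideal (R K) := Ideal.span {lf a, lf b}
  have hX : ∀ j, X j - C (c j) * lf p ∈ I := by
    intro j
    have h1 := cramer a b p j
    rw [← hΔ] at h1
    rw [Ideal.mem_span_pair]
    refine ⟨C (Δ⁻¹ * cr b p j), C (Δ⁻¹ * cr p a j), ?_⟩
    have e : (C (Δ⁻¹) : R K) * C Δ = 1 := by rw [← C_mul, inv_mul_cancel₀ h, C_1]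
    have e2 : (C (c j) : R K) = C Δ⁻¹ * C (cr a b j) := by
      rw [← C_mul]; congr 1; change cr a b j / Δ = _; rw [div_eq_inv_mul]
    rw [e2, C_mul, C_mul]
    linear_combination (-(C Δ⁻¹ : R K)) * h1 + X j * e
  let θ : R K →+* R K := eval₂Hom C (fun j => C (c j) * lf p)
  have hθ : ∀ s, s - θ s ∈ I := by
    intro s
    induction s using MvPolynomial.induction_on with
    | C a =>
      have : θ (C a) = C a := eval₂Hom_C _ _ _
      rw [this, sub_self]
      exact I.zero_mem
    | add q r hq hr =>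
      rw [map_add, show q + r - (θ q + θ r) = (q - θ q) + (r - θ r) by ring]
      exact I.add_mem hq hr
    | mul_X q j hq =>
      have : θ (X j) = C (c j) * lf p := eval₂Hom_X' _ _ _
      rw [map_mul, this, show q * X j - θ q * (C (c j) * lf p)
        = X j * (q - θ q) + θ q * (X j - C (c j) * lf p) by ring]
      exact I.add_mem (I.mul_mem_left _ hq) (I.mul_mem_left _ (hX j))
  have hθs : θ s = C (eval c s) * lf p ^ k := by
    have h1 : θ s = ∑ m ∈ s.support, θ (monomial m (coeff m s)) := by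
      rw [← map_sum, ← as_sum]
    have h2 : eval c s = ∑ m ∈ s.support, eval c (monomial m (coeff m s)) := by
      rw [← map_sum, ← as_sum]
    rw [h1, h2, map_sum, Finset.sum_mul]
    refine Finset.sum_congr rfl fun m hm => ?_
    have hdeg : ∑ j, m j = k := by
      have h3 := hs (mem_support_iff.1 hm)
      rw [Finsupp.weight_apply, Finsupp.sum_fintype _ _ (by simp)] at h3
      simpa using h3
    change eval₂Hom C (fun j => C (c j) * lf p) (monomial m (coeff m s)) = _
    rw [eval₂Hom_monomial, eval_monomial, Finsupp.prod_fintype _ _ (by simp),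
      Finsupp.prod_fintype _ _ (by simp), C_mul, map_prod]
    simp only [mul_pow, map_pow]
    rw [Finset.prod_mul_distrib, Finset.prod_pow_eq_pow_sum, hdeg, mul_assoc]
  have h1 := hθ s
  rw [Ideal.mem_span_pair, hθs] at h1
  obtain ⟨r, r', h1⟩ := h1
  exact ⟨eval c s, r, r', by linear_combination -h1⟩

/-- the substitution `t ↦ p + X a` -/
noncomputable def Psi (p a : Fin 3 → K) : RT K →+* Polynomial (R K) :=
  eval₂Hom Polynomial.C (fun k => Polynomial.C (C (p k)) + Polynomial.C (C (a k)) * Polynomial.X)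

lemma Psi_C (p a : Fin 3 → K) (s : R K) : Psi p a (C s) = Polynomial.C s := eval₂Hom_C _ _ _

lemma Psi_X (p a : Fin 3 → K) (k : Fin 3) : Psi p a (X k)
    = Polynomial.C (C (p k)) + Polynomial.C (C (a k)) * Polynomial.X := eval₂Hom_X' _ _ _

lemma Psi_gl (p a : Fin 3 → K) : Psi p a (gl K)
    = Polynomial.C (lf p) + Polynomial.C (lf a) * Polynomial.X := by
  rw [gl, lf, lf, map_sum, map_sum, map_sum, Finset.sum_mul, ← Finset.sum_add_distrib]
  refine Finset.sum_congr rfl fun k _ => ?_
  rw [map_mul, Psi_C, Psi_X, Polynomial.C_mul, Polynomial.C_mul]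
  ring

lemma Psi_coeff_zero (p a : Fin 3 → K) (P : RT K) : (Psi p a P).coeff 0 = evt p P := by
  have h : (Polynomial.constantCoeff).comp (Psi p a) = evt p := by
    apply MvPolynomial.ringHom_ext
    · intro r
      rw [RingHom.comp_apply, Psi_C, evt_C, Polynomial.constantCoeff_apply, Polynomial.coeff_C_zero]
    · intro k
      rw [RingHom.comp_apply, Psi_X, evt_X, Polynomial.constantCoeff_apply]
      simp
  have h1 := congrArg (fun f => f P) h
  exact h1

lemma Psi_coeff_mem (p a : Fin 3 → K) (S : Submodule K (R K)) {P : RT K}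
    (hP : ∀ m, coeff m P ∈ S) (k : ℕ) : (Psi p a P).coeff k ∈ S := by
  classical
  have h1 : Psi p a P = ∑ m ∈ P.support, Psi p a (monomial m (coeff m P)) := by
    rw [← map_sum, ← as_sum]
  rw [h1, Polynomial.finsetSum_coeff]
  refine S.sum_mem fun m _ => ?_
  obtain ⟨q, hq⟩ : ∃ q : Polynomial K, q = m.prod fun k e =>
    (Polynomial.C (p k) + Polynomial.C (a k) * Polynomial.X) ^ e := ⟨_, rfl⟩
  have h2 : Psi p a (monomial m (coeff m P)) = Polynomial.C (coeff m P) * q.map C := by
    change eval₂Hom _ _ _ = _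
    rw [eval₂Hom_monomial, hq]
    congr 1
    rw [Finsupp.prod, Finsupp.prod, Polynomial.map_prod]
    refine Finset.prod_congr rfl fun k _ => ?_
    rw [Polynomial.map_pow, Polynomial.map_add, Polynomial.map_mul, Polynomial.map_C,
      Polynomial.map_C, Polynomial.map_X]
  rw [h2, Polynomial.coeff_C_mul, Polynomial.coeff_map, mul_comm, ← smul_eq_C_mul]
  exact S.smul_mem _ (hP m)

/-- generic goodness if a linear form kills the functional -/
lemma exists_generic [CharZero K] {φ : R K →ₗ[K] K} {d : ℕ} {x : R K} (hx : x.IsHomogeneous 1)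
    (hx0 : x ≠ 0) (hk : ∀ s, φ (x * s) = 0) : ∃ P : R K, P ≠ 0 ∧
      ∀ p : Fin 3 → K, eval p P ≠ 0 → ∀ k, 2 * k ≤ d → Good φ d k (lf p) := by
  classical
  obtain ⟨ℓ, hℓ, hG⟩ := exists_good (φ := φ) (d := d) (q := x ^ 2)
    (by have := hx.pow 2; rwa [one_mul] at this)
    (pow_ne_zero _ hx0) (by
      intro j _ s _
      rw [pow_two, mul_assoc]
      exact hk _)
  obtain ⟨p1, rfl⟩ := exists_lf hℓ
  have hP : ∀ k, ∃ P : R K, P ≠ 0 ∧
      (2 * k ≤ d → ∀ p : Fin 3 → K, eval p P ≠ 0 → Good φ d k (lf p)) := by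
    intro k
    by_cases h2 : 2 * k ≤ d
    · obtain ⟨P, hP0, hP⟩ := descent (K := K) (L := K) (φ := φ) (d := d) (i := k) h2
        (pL := p1) (by
          intro x hx hx2 v hv
          rw [ex_self]
          refine hG k h2 x hx ?_ v hv
          intro v hv
          rw [← ex_self φ]
          exact hx2 v hv)
      exact ⟨P, hP0, fun _ => hP⟩
    · exact ⟨1, one_ne_zero, fun h => absurd h h2⟩
  choose P hP0 hP using hP
  refine ⟨∏ k ∈ Finset.range (d + 1), P k, Finset.prod_ne_zero_iff.mpr (fun i _ => hP0 i), ?_⟩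
  intro p hp k hk
  rw [map_prod] at hp
  exact hP k hk p (Finset.prod_ne_zero_iff.mp hp k (Finset.mem_range.mpr (by omega)))

lemma lf_ne {a : Fin 3 → K} (ha : a ≠ 0) : lf a ≠ 0 :=
  (Pool.Agent.Helper15K9.IC.irreducible_lf ha).ne_zero

end

section

variable {L : Type*} [Field L] [CharZero L] [IsAlgClosed L]

/-- a good linear form -/
theorem exists_good_nd {φ : R L →ₗ[L] L} {D : ℕ} (hφ : Deg φ D) {a b : Fin 3 → L} (ha : a ≠ 0)
    (hab : b = a ∨ cr a b ≠ 0) (h1 : lf a ^ 2 * lf b ∈ gor φ)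
    (h2 : ∀ s, lf a * lf b * s ∈ gor φ → s ∈ Fl (gor φ) (lf a) 1)
    (h3 : ∀ s, lf a ^ 2 * s ∈ gor φ → ∃ r, s - lf b * r ∈ gor φ)
    (h4 : ∀ s, lf a * s ∈ gor φ → ∃ r, s - lf a * lf b * r ∈ gor φ)
    {i : ℕ} (hi : 2 * i ≤ D) : ∃ p : Fin 3 → L, Good φ D i (lf p) := by
  classical
  have hinf : Infinite L := inferInstance
  rcases Nat.eq_or_lt_of_le hi with h0 | h0
  · refine ⟨0, ?_⟩
    intro u _ hu2 w hw
    rw [show D - i = i by omega] at hw
    have := hu2 w hw
    rwa [h0, Nat.sub_self, pow_zero, one_mul] at this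
  by_contra hcon
  push Not at hcon
  obtain ⟨N, hN⟩ : ∃ N, N = D - 2 * i := ⟨_, rfl⟩
  obtain ⟨d, u, hd, hut, hux, hker, ⟨t0, v0, hv0, hne0⟩, -⟩ :=
    exists_kernel L φ D i N (by omega) (by omega) hcon
  have hP : ∀ m, coeff m (u * gl L ^ N) ∈ gor φ := by
    intro m
    have h5 : (coeff m (u * gl L ^ N)).IsHomogeneous (D - i) := by
      have h3 : BH u i := hux
      have := (h3.mul (BH_gl.pow N)) m
      rwa [one_mul, show i + N = D - i by omega] at this
    apply annP_of_homog hφ (by omega) h5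
    intro v hv
    rw [show D - (D - i) = i by omega] at hv
    exact hker m v hv
  -- the generic point
  obtain ⟨Q, hQ⟩ : ∃ Q : R L, Q = Ph (φ ∘ₗ LinearMap.mulRight L v0) u := ⟨_, rfl⟩
  have hQe : ∀ t, eval t Q = φ (evt t u * v0) := by
    intro t
    rw [hQ, eval_Ph]; rfl
  have hQ0 : Q ≠ 0 := by
    rintro h
    apply hne0
    rw [← hQe, h, map_zero]
  have hgen : ∀ P : R L, P ≠ 0 → ∃ p, eval p P ≠ 0 := by
    intro P hP0
    by_contra hall
    push Not at hall
    apply hP0
    apply MvPolynomial.funext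
    intro t
    rw [hall t, map_zero]
  have hkill : ∀ q s : R L, mulF φ (lf a * (lf b * q)) (lf a * s) = 0 := by
    intro q s
    rw [mulF_apply, show lf a * (lf b * q) * (lf a * s) = lf a ^ 2 * lf b * (q * s) by ring]
    exact h1 _
  -- the conclusion
  have concl : ∀ p : Fin 3 → L, eval p Q ≠ 0 →
      (∀ A : ℕ → R L, (∀ j, (A j).IsHomogeneous (i - j)) → (∀ j, i < j → A j = 0) →
      (∀ j, ∑ k ∈ Finset.range (j + 1), (N.choose k : R L) * lf p ^ (N - k) *
        (lf a ^ j * A (j - k)) ∈ Fl (gor φ) (lf a) (j + 1)) →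
      ∀ j, lf a ^ j * A j ∈ Fl (gor φ) (lf a) (j + 1)) → False := by
    intro p hp hgr
    rw [hQe] at hp
    apply hp
    have h5 := semicont (gor_homog hφ) (lf_hom a) hgr (Psi p a u) (fun k =>
      Psi_coeff_mem p a (homogeneousSubmodule (Fin 3) L i) hux k) (by
        intro k
        rw [← Psi_gl, ← map_pow, ← map_mul]
        apply Psi_coeff_mem p a ((gor φ).restrictScalars L)
        intro m
        rw [mul_comm]
        exact hP m) 0
    rw [Psi_coeff_zero] at h5
    exact h5 v0
  rcases hab with hab | hab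
  · -- the triple line
    subst hab
    obtain ⟨P, hP0, hP2⟩ := exists_generic (φ := mulF φ (lf b * lf b)) (d := D - 2) (lf_hom b)
      (lf_ne ha) (by
        intro s
        have := hkill 1 s
        rwa [mul_one] at this)
    obtain ⟨p, hp⟩ := hgen _ (mul_ne_zero hQ0 hP0)
    rw [map_mul, mul_ne_zero_iff] at hp
    let T : ND L := ⟨φ, D, lf b, lf b, lf p, hφ, lf_hom b, lf_hom b, lf_hom p, h1, h2, h3, h4⟩
    refine concl p hp.1 fun A hA hA0 hT j => ?_
    exact ND.stepC (T := T) rfl (i := i) (N := N) (show 2 * i + N = D by omega) (by omega)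
      (hP2 p hp.2) hA hA0 hT j
  · obtain ⟨P, hP0, hP2⟩ := exists_generic (φ := mulF φ (lf a * lf b ^ 2)) (d := D - 3) (lf_hom a)
      (lf_ne ha) (by
        intro s
        have := hkill (lf b) s
        rwa [← pow_two] at this)
    obtain ⟨p, hp⟩ := hgen _ (mul_ne_zero (mul_ne_zero hQ0 hP0) (lf_ne hab))
    rw [map_mul, map_mul, mul_ne_zero_iff, mul_ne_zero_iff] at hp
    let T : ND L := ⟨φ, D, lf a, lf b, lf p, hφ, lf_hom a, lf_hom b, lf_hom p, h1, h2, h3, h4⟩
    have hSp : T.Sp := fun k s hs => sp_of_det hp.2 k s hs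
    refine concl p hp.1.1 fun A hA hA0 hT j => ?_
    exact ND.stepS (T := T) (i := i) (N := N) (show 2 * i + N = D by omega) (by omega)
      (hP2 p hp.1.2) hA hT (T.stepQ hSp (show 2 * i + N = D by omega) A hA hA0 hT) j

end

end Pool.Agent.H868.NR
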