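import Pool.Agent.H868.NR.Gen
import Pool.Agent.H868.RC.Main

/-!
The strong Lefschetz property of the complete intersections `(f, g, h)` with a form `f` of degree at
most three.
-/

namespace Pool.Agent.H868.NR

set_option maxHeartbeats 400000

open MvPolynomial
open Pool.Agent.Helper15K9.IC (R deg_ex)
open Pool.Agent.H868.RC (CI3 ci3_of_reg reg_of_ci3 const_of_mem ne_zero_of_nzd exists_form range_three
  exists_good_of_dt not_unit_of_hom unit_of_deg lf_smul)
open Pool.Agent.W695.SLP (lf Good fun0 fun0_apply Ann mem_Ann act act_hom HasSLP slp_of_good descent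
  ex ex_self exists_lf nondeg lf_hom)
open Pool.Agent.TH61.SL (exI ann_dual main_K pair_of_mem mem_of_pair mem_of_large)
open Pool.Agent.W515.SLP (AnnP Deg)
open H503R3.QCI (NZD Reg)
open TH130CI (gor mem_gor gor_homog ci_gor' reg_map sreg_of_reg SRegOn)

universe w

section

variable {K : Type w} [Field K]

/-- the first form is regular modulo the others -/
lemma nzd_first {f g h : R K} {a b c : ℕ} (hf : f.IsHomogeneous a) (hg : g.IsHomogeneous b)
    (hh : h.IsHomogeneous c) (ha : 1 ≤ a) (hb : 1 ≤ b) (hc : 1 ≤ c)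
    (hreg : Reg ![f, g, h]) : NZD (Ideal.span {g, h}) f := by
  have hs := sreg_of_reg (f := ![f, g, h]) (d := ![a, b, c]) (by
    intro i
    fin_cases i
    · exact hf
    · exact hg
    · exact hh) (by
    intro i
    fin_cases i
    · exact ha
    · exact hb
    · exact hc) hreg
  have h1 := hs {1, 2} (Finset.subset_univ _) 0 (Finset.mem_univ _) (by decide)
  have h2 : (![f, g, h] '' (({1, 2} : Finset (Fin 3)) : Set (Fin 3))) = {g, h} := by
    rw [Finset.coe_insert, Finset.coe_singleton, Set.image_pair]; rfl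
  rwa [h2] at h1

/-- the inverse system -/
lemma exists_F [CharZero K] {a b c : ℕ} {f g h : R K} (hf : f.IsHomogeneous a)
    (hg : g.IsHomogeneous b) (hh : h.IsHomogeneous c) (ha : 1 ≤ a) (hb : 1 ≤ b) (hc : 1 ≤ c)
    (hreg : Reg ![f, g, h]) : ∃ F : R K, F.IsHomogeneous (a - 1 + (b - 1) + (c - 1)) ∧ F ≠ 0 ∧
      Ann F = Ideal.span {f, g, h} := by
  obtain ⟨φ, hφ, hI⟩ := ci_gor' (f := ![f, g, h]) (d := ![a, b, c]) (by
    intro i
    fin_cases i
    · exact hf
    · exact hg
    · exact hh) (by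
    intro i
    fin_cases i
    · exact ha
    · exact hb
    · exact hc) hreg
  obtain ⟨D, hD⟩ : ∃ D, D = a - 1 + (b - 1) + (c - 1) := ⟨_, rfl⟩
  have hsum : ∑ i, ((![a, b, c] : Fin 3 → ℕ) i - 1) = D := by
    rw [Fin.sum_univ_three]
    simp only [Matrix.cons_val_zero, Matrix.cons_val_one, Matrix.cons_val]
    omega
  rw [hsum] at hφ
  rw [range_three] at hI
  obtain ⟨F, hF, hFφ⟩ := exists_form hφ
  have hAnn : Ann F = Ideal.span {f, g, h} := by
    apply le_antisymm
    · intro x hx
      rw [hI, mem_gor]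
      intro v
      rw [← hFφ, fun0_apply, mul_comm, map_mul, Module.End.mul_apply, mem_Ann.1 hx, map_zero,
        coeff_zero]
    · have key : ∀ {p : R K} {n : ℕ}, p.IsHomogeneous n → p ∈ gor φ → p ∈ Ann F := by
        intro p n hp hpg
        rcases Nat.lt_or_ge D n with h | h
        · rw [mem_Ann]
          exact (act_hom hF hp).2 h
        · rw [ann_dual hF n h p hp]
          intro v _
          rw [hFφ]
          exact hpg v
      have hsub : ∀ p ∈ ({f, g, h} : Set (R K)), p ∈ gor φ := by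
        intro p hp
        rw [← hI]
        exact Ideal.subset_span hp
      rw [Ideal.span_le]
      rintro y (rfl | rfl | rfl)
      · exact key hf (hsub _ (by simp))
      · exact key hg (hsub _ (by simp))
      · exact key hh (hsub _ (by simp))
  refine ⟨F, by rwa [← hD], ?_, hAnn⟩
  intro h0
  have h1 : (1 : R K) ∈ Ann F := by
    rw [mem_Ann, h0, map_zero]
  rw [hAnn] at h1
  have h2 := const_of_mem hf hg hh ha hb hc h1
  rw [map_one] at h2
  exact one_ne_zero h2

/-- the functional over the closure -/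
lemma gor_ex [CharZero K] {L : Type w} [Field L] [Algebra K L] {F : R K} {D : ℕ}
    (hF : F.IsHomogeneous D) : gor (ex (fun0 F) L) = exI L (Ann F) := by
  have hdeg : Deg (ex (fun0 F) L) D := deg_ex hF
  apply le_antisymm
  · intro s hs
    rw [← sum_homogeneousComponent s]
    refine Ideal.sum_mem _ fun e _ => ?_
    have h1 := gor_homog hdeg s hs e
    have h2 := homogeneousComponent_isHomogeneous e s
    exact mem_of_pair hF h2 fun v _ => h1 v
  · intro s hs
    rw [mem_gor]
    exact pair_of_mem hs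

end

section

variable {L : Type w} [Field L] [CharZero L] [IsAlgClosed L]

/-- the non-reduced cubics -/
lemma nonreduced {f : R L} (hf : f.IsHomogeneous 3) (hf0 : f ≠ 0) (hsq : ¬ Squarefree f) :
    ∃ a b : Fin 3 → L, a ≠ 0 ∧ (b = a ∨ cr a b ≠ 0) ∧ f = lf a ^ 2 * lf b := by
  rw [Squarefree] at hsq
  push Not at hsq
  obtain ⟨p, ⟨q, hpq⟩, hp⟩ := hsq
  have hp0 : p ≠ 0 := by
    rintro rfl
    rw [zero_mul, zero_mul] at hpq
    exact hf0 hpq
  have hq0 : q ≠ 0 := by
    rintro rfl
    rw [mul_zero] at hpq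
    exact hf0 hpq
  have hph : p.IsHomogeneous p.totalDegree :=
    Pool.Agent.Chud.homog_of_dvd hf hf0 (by rw [hpq, mul_assoc]; exact Dvd.intro _ rfl)
  have hqh : q.IsHomogeneous q.totalDegree :=
    Pool.Agent.Chud.homog_of_dvd hf hf0 (by rw [hpq]; exact Dvd.intro_left _ rfl)
  have hdeg := hf.totalDegree hf0
  rw [hpq, totalDegree_mul_of_isDomain (mul_ne_zero hp0 hp0) hq0,
    totalDegree_mul_of_isDomain hp0 hp0] at hdeg
  have hp1 : p.totalDegree ≠ 0 := fun h => hp (unit_of_deg hp0 h)
  rw [show p.totalDegree = 1 by omega] at hph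
  rw [show q.totalDegree = 1 by omega] at hqh
  obtain ⟨a, rfl⟩ := exists_lf hph
  obtain ⟨b, rfl⟩ := exists_lf hqh
  have ha : a ≠ 0 := by
    rintro rfl
    apply hp0
    rw [lf]; simp
  by_cases hs : ∃ s : L, b = s • a
  · obtain ⟨s, rfl⟩ := hs
    obtain ⟨z, hz⟩ := IsAlgClosed.exists_pow_nat_eq s (n := 3) (by norm_num)
    have hz0 : z ≠ 0 := by
      rintro rfl
      apply hq0
      rw [← hz, lf]; simp
    refine ⟨z • a, z • a, smul_ne_zero hz0 ha, Or.inl rfl, ?_⟩
    rw [hpq, lf_smul, lf_smul, ← hz, map_pow]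
    ring
  · push Not at hs
    exact ⟨a, b, ha, Or.inr (cr_ne ha hs), by rw [hpq]; ring⟩

/-- a good linear form for a non-reduced cubic -/
theorem exists_good_nr {K : Type w} [Field K] [CharZero K] [Algebra K L] {D : ℕ}
    {F : R K} (hF : F.IsHomogeneous D) {f g h : R L}
    (hf : f.IsHomogeneous 3) (hf0 : f ≠ 0) (hn : NZD (Ideal.span {g, h}) f)
    (hJ : exI L (Ann F) = Ideal.span {f, g, h}) (hsq : ¬ Squarefree f) {i : ℕ} (hi : 2 * i ≤ D) :
    ∃ p : Fin 3 → L, Good (ex (fun0 F) L) D i (lf p) := by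
  obtain ⟨a, b, ha, hab, hfab⟩ := nonreduced hf hf0 hsq
  have hg := gor_ex (L := L) hF
  rw [hJ] at hg
  have hle : Ideal.span {g, h} ≤ Ideal.span {f, g, h} :=
    Ideal.span_mono (Set.subset_insert _ _)
  have hmem : ∀ s, s ∈ Ideal.span {f, g, h} → ∃ r, s - f * r ∈ Ideal.span {g, h} := by
    intro s hs
    rw [Ideal.mem_span_insert] at hs
    obtain ⟨r, z, hz, rfl⟩ := hs
    exact ⟨r, by rwa [mul_comm r f, add_sub_cancel_left]⟩
  refine exists_good_nd (deg_ex hF) ha hab ?_ ?_ ?_ ?_ hi
  · rw [hg, ← hfab]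
    exact Ideal.subset_span (by simp)
  · intro s hs
    rw [hg] at hs ⊢
    obtain ⟨r, hr⟩ := hmem _ hs
    rw [mem_Fl]
    refine ⟨r, hle (hn _ ?_)⟩
    have e : f * (s - lf a ^ 1 * r) = lf a * (lf a * lf b * s - f * r) := by
      rw [hfab]; ring
    rw [e]
    exact Ideal.mul_mem_left _ _ hr
  · intro s hs
    rw [hg] at hs ⊢
    obtain ⟨r, hr⟩ := hmem _ hs
    refine ⟨r, hle (hn _ ?_)⟩
    have e : f * (s - lf b * r) = lf b * (lf a ^ 2 * s - f * r) := by
      rw [hfab]; ring
    rw [e]
    exact Ideal.mul_mem_left _ _ hr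
  · intro s hs
    rw [hg] at hs ⊢
    obtain ⟨r, hr⟩ := hmem _ hs
    refine ⟨r, hle (hn _ ?_)⟩
    have e : f * (s - lf a * lf b * r) = lf a * lf b * (lf a * s - f * r) := by
      rw [hfab]; ring
    rw [e]
    exact Ideal.mul_mem_left _ _ hr

end

section

variable {K : Type w} [Field K]

theorem main_le [CharZero K] {b c : ℕ} {f g h : R K} (hf : f.IsHomogeneous 3) (hf0 : f ≠ 0)
    (hg : g.IsHomogeneous b) (hh : h.IsHomogeneous c) (hb : 1 ≤ b) (hbc : b ≤ c)
    (H : CI3 f g h) :
    HasSLP (Ideal.span {f, g, h}) := by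
  classical
  have hc : 1 ≤ c := hb.trans hbc
  have hinf : Infinite K := inferInstance
  have hchar : CharZero (AlgebraicClosure K) := charZero_of_injective_algebraMap
    (algebraMap K (AlgebraicClosure K)).injective
  have hreg := reg_of_ci3 hf0 H
  obtain ⟨F, hF, hF0, hAnn⟩ := exists_F hf hg hh (by norm_num) hb hc hreg
  rw [show 3 - 1 + (b - 1) + (c - 1) = b + c by omega] at hF
  have hfF : f ∈ Ann F := by rw [hAnn]; exact Ideal.subset_span (by simp)
  have hgF : g ∈ Ann F := by rw [hAnn]; exact Ideal.subset_span (by simp)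
  rw [← hAnn]
  by_cases hb2 : b ≤ 2
  · -- a quadric
    have hq : (g * X 0 ^ (2 - b)).IsHomogeneous 2 := by
      have h1 := hg.mul ((isHomogeneous_X K (0 : Fin 3)).pow (2 - b))
      rwa [show b + 1 * (2 - b) = 2 by omega] at h1
    refine Pool.Agent.W695.SLP.main hF hq
      (mul_ne_zero (ne_zero_of_nzd hf (by norm_num) H.fg) (pow_ne_zero _ (X_ne_zero _))) ?_
    exact mem_Ann.1 (Ideal.mul_mem_right _ _ hgF)
  by_cases hirr : Irreducible (map (algebraMap K (AlgebraicClosure K)) f)
  · exact Pool.Agent.Helper15K9.IC.slp_of_core (fun L _ _ _ D =>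
      Pool.Agent.Helper15K9.IC.core L D) K hF hf hirr (mem_Ann.1 hfF)
  push Not at hb2
  obtain ⟨-, ℓ, hℓ, hG⟩ := main_K (a := 3) hF hF0 hf hg hh (by norm_num) (by omega) (by omega)
    (by omega) hAnn H.fgh
  obtain ⟨p1, rfl⟩ := exists_lf hℓ
  have hL : ∀ i, 2 * i ≤ b + c → i ≠ 0 → i + 1 < b →
      ∃ p : Fin 3 → AlgebraicClosure K, Good (ex (fun0 F) (AlgebraicClosure K)) (b + c) i (lf p) := by
    intro i h2i hi0 hib
    have hreg' := reg_map (L := AlgebraicClosure K) hreg
    have e1 : (fun i => map (algebraMap K (AlgebraicClosure K)) (![f, g, h] i))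
        = ![map (algebraMap K (AlgebraicClosure K)) f, map (algebraMap K (AlgebraicClosure K)) g,
          map (algebraMap K (AlgebraicClosure K)) h] := by
      funext i
      fin_cases i <;> rfl
    rw [e1] at hreg'
    have hfL := hf.map (algebraMap K (AlgebraicClosure K))
    have hgL := hg.map (algebraMap K (AlgebraicClosure K))
    have hhL := hh.map (algebraMap K (AlgebraicClosure K))
    have hfL0 : map (algebraMap K (AlgebraicClosure K)) f ≠ 0 := by
      intro h0
      apply hf0
      apply map_injective (algebraMap K (AlgebraicClosure K)) (algebraMap K _).injective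
      rw [h0, map_zero]
    have hJL : exI (AlgebraicClosure K) (Ann F) = Ideal.span
        {map (algebraMap K (AlgebraicClosure K)) f, map (algebraMap K (AlgebraicClosure K)) g,
          map (algebraMap K (AlgebraicClosure K)) h} := by
      rw [hAnn, exI, Ideal.map_span, Set.image_insert_eq, Set.image_insert_eq, Set.image_singleton]
    by_cases hsq : Squarefree (map (algebraMap K (AlgebraicClosure K)) f)
    · refine exists_good_of_dt (L := AlgebraicClosure K) hF hfL hfL0 hgL hhL
        (ci3_of_reg hfL hgL hhL (by norm_num) hb hc hreg') hJL ?_ (by omega) hib (by omega)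
      intro D hD
      exact Pool.Agent.H868.RC.core (AlgebraicClosure K) D (by rw [hD]; exact hsq)
        (by rw [hD]; exact hirr)
    · exact exists_good_nr (L := AlgebraicClosure K) hF hfL hfL0
        (nzd_first hfL hgL hhL (by norm_num) hb hc hreg') hJL hsq h2i
  have hP : ∀ i, ∃ P : R K, P ≠ 0 ∧
      (2 * i ≤ b + c → ∀ p : Fin 3 → K, eval p P ≠ 0 → Good (fun0 F) (b + c) i (lf p)) := by
    intro i
    by_cases h2 : 2 * i ≤ b + c
    · by_cases hi : i ≠ 0 ∧ i + 1 < b
      · obtain ⟨pL, hGL⟩ := hL i h2 hi.1 hi.2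
        obtain ⟨P, hP0, hP⟩ := descent h2 hGL
        exact ⟨P, hP0, fun _ => hP⟩
      · have h3 := hG i h2 (by omega)
        obtain ⟨P, hP0, hP⟩ := descent (K := K) (L := K) (φ := fun0 F) (d := b + c) (i := i) h2
          (pL := p1) (by
            intro x hx hx2 v hv
            rw [ex_self]
            refine h3 x hx ?_ v hv
            intro v hv
            rw [← ex_self (fun0 F)]
            exact hx2 v hv)
        exact ⟨P, hP0, fun _ => hP⟩
    · exact ⟨1, one_ne_zero, fun h => absurd h h2⟩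
  choose P hP0 hP using hP
  have hprod : ∏ i ∈ Finset.range (b + c + 1), P i ≠ 0 :=
    Finset.prod_ne_zero_iff.mpr (fun i _ => hP0 i)
  have hex : ∃ p : Fin 3 → K, eval p (∏ i ∈ Finset.range (b + c + 1), P i) ≠ 0 := by
    by_contra h
    push Not at h
    apply hprod
    apply MvPolynomial.funext
    intro p
    rw [h p, map_zero]
  obtain ⟨p, hp⟩ := hex
  rw [map_prod] at hp
  refine slp_of_good (φ := fun0 F) (d := b + c) (ann_dual hF) ?_
    (Pool.Agent.W695.SLP.lf_hom p) fun i hi => ?_
  · intro i hi g hg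
    rw [mem_Ann]
    exact (act_hom hF hg).2 hi
  · exact hP i hi p (Finset.prod_ne_zero_iff.mp hp i (Finset.mem_range.mpr (by omega)))

theorem main [CharZero K] {a b c : ℕ} {f g h : R K} (hf : f.IsHomogeneous a)
    (hg : g.IsHomogeneous b) (hh : h.IsHomogeneous c) (ha : 1 ≤ a) (ha3 : a ≤ 3) (hb : 1 ≤ b)
    (hc : 1 ≤ c) (hreg : Reg ![f, g, h]) :
    HasSLP (Ideal.span {f, g, h}) := by
  have hf0 : f ≠ 0 := by
    rintro rfl
    have h1 := nzd_first hf hg hh ha hb hc hreg 1 (by rw [zero_mul]; exact Ideal.zero_mem _)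
    have h2 := const_of_mem hf hg hh ha hb hc
      (Ideal.span_mono (Set.subset_insert (0 : R K) {g, h}) h1)
    rw [map_one] at h2
    exact one_ne_zero h2
  rcases Nat.lt_or_ge a 3 with ha2 | ha2
  · obtain ⟨F, hF, hF0, hAnn⟩ := exists_F hf hg hh ha hb hc hreg
    have hfF : f ∈ Ann F := by rw [hAnn]; exact Ideal.subset_span (by simp)
    rw [← hAnn]
    have hq : (f * X 0 ^ (2 - a)).IsHomogeneous 2 := by
      have h1 := hf.mul ((isHomogeneous_X K (0 : Fin 3)).pow (2 - a))
      rwa [show a + 1 * (2 - a) = 2 by omega] at h1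
    refine Pool.Agent.W695.SLP.main hF hq (mul_ne_zero hf0 (pow_ne_zero _ (X_ne_zero _))) ?_
    exact mem_Ann.1 (Ideal.mul_mem_right _ _ hfF)
  obtain rfl : a = 3 := by omega
  have H := ci3_of_reg hf hg hh (by norm_num) hb hc hreg
  rcases Nat.le_total b c with h1 | h1
  · exact main_le hf hf0 hg hh hb h1 H
  · have h2 := main_le hf hf0 hh hg hc h1 H.swap
    have e : ({f, h, g} : Set (R K)) = {f, g, h} := by
      rw [Set.pair_comm]
    rwa [e] at h2

end

end Pool.Agent.H868.NR
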