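import Pool.Agent.H868.RC.Factor

/-!
Semicontinuity with respect to the filtration by the powers of a linear form, and sparse multiples of
powers of `1 + s`.
-/

namespace Pool.Agent.H868.NR

set_option maxHeartbeats 400000

open MvPolynomial
open Pool.Agent.Helper15K9.IC (R)
open Pool.Agent.TH61.SL (hc comp_mul hc_zero hc_hom comp_self comp_ne)

variable {K : Type*} [Field K]

/-- a polynomial divisible by `(1 + s) ^ N` with at most `N` terms is zero -/
lemma sparse [CharZero K] (N : ℕ) : ∀ P : Polynomial K, (1 + Polynomial.X) ^ N ∣ P →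
    P.support.card ≤ N → P = 0 := by
  classical
  induction N with
  | zero =>
    intro P _ h
    rw [Nat.le_zero, Finset.card_eq_zero, Polynomial.support_eq_empty] at h
    exact h
  | succ N ih =>
    intro P hP hcard
    by_contra hP0
    -- remove the power of `X`
    obtain ⟨Q, hQ, hQ0⟩ : ∃ Q : Polynomial K, P = Polynomial.X ^ P.natTrailingDegree * Q ∧
        Q.coeff 0 ≠ 0 := by
      obtain ⟨Q, hQ⟩ : Polynomial.X ^ P.natTrailingDegree ∣ P :=
        Polynomial.X_pow_dvd_iff.2 fun d hd => Polynomial.coeff_eq_zero_of_lt_natTrailingDegree hd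
      refine ⟨Q, hQ, ?_⟩
      have h1 : P.coeff P.natTrailingDegree ≠ 0 := by
        rw [← Polynomial.trailingCoeff]
        exact (Polynomial.trailingCoeff_nonzero_iff_nonzero).2 hP0
      intro h0
      apply h1
      have h2 := Polynomial.coeff_X_pow_mul Q P.natTrailingDegree 0
      rw [← hQ, Nat.zero_add] at h2
      rw [h2, h0]
    have hcop : IsCoprime ((1 + Polynomial.X) ^ (N + 1) : Polynomial K)
        (Polynomial.X ^ P.natTrailingDegree) := by
      apply IsCoprime.pow
      exact ⟨1, -1, by ring⟩
    have hQd : (1 + Polynomial.X) ^ (N + 1) ∣ Q := by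
      rw [hQ] at hP
      exact hcop.dvd_of_dvd_mul_left hP
    have hQc : Q.support.card ≤ N + 1 := by
      refine le_trans ?_ hcard
      have h1 : Q.support.image (fun n => n + P.natTrailingDegree) ⊆ P.support := by
        intro n hn
        rw [Finset.mem_image] at hn
        obtain ⟨k, hk, rfl⟩ := hn
        rw [Polynomial.mem_support_iff] at hk ⊢
        have h2 := Polynomial.coeff_X_pow_mul Q P.natTrailingDegree k
        rw [← hQ] at h2
        rwa [h2]
      rw [← Finset.card_image_of_injective Q.support (fun a b h => Nat.add_right_cancel h :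
        Function.Injective (fun n => n + P.natTrailingDegree))]
      exact Finset.card_le_card h1
    -- the derivative
    have hder : Polynomial.derivative Q = 0 := by
      apply ih
      · obtain ⟨S, hS⟩ := hQd
        refine ⟨(N + 1 : Polynomial K) * S + (1 + Polynomial.X) * Polynomial.derivative S, ?_⟩
        rw [hS, Polynomial.derivative_mul, Polynomial.derivative_pow]
        simp only [Polynomial.derivative_add, Polynomial.derivative_one, Polynomial.derivative_X,
          zero_add, mul_one, Nat.add_sub_cancel]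
        push_cast
        simp only [map_add, map_one, map_natCast]
        ring
      · have h1 : (Polynomial.derivative Q).support.image (fun n => n + 1) ⊆ Q.support.erase 0 := by
          intro n hn
          rw [Finset.mem_image] at hn
          obtain ⟨k, hk, rfl⟩ := hn
          rw [Polynomial.mem_support_iff, Polynomial.coeff_derivative] at hk
          rw [Finset.mem_erase, Polynomial.mem_support_iff]
          exact ⟨Nat.succ_ne_zero k, left_ne_zero_of_mul hk⟩
        have h2 := Finset.card_le_card h1
        rw [Finset.card_image_of_injective _ (fun a b h => Nat.add_right_cancel h :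
          Function.Injective (fun n => n + 1)), Finset.card_erase_of_mem (by
            rw [Polynomial.mem_support_iff]; exact hQ0)] at h2
        omega
    have hQconst := Polynomial.derivative_eq_zero.1 hder
    obtain ⟨S, hS⟩ := hQd
    have hQne : Q ≠ 0 := by
      rintro rfl
      exact hQ0 (Polynomial.coeff_zero 0)
    have h1 := Polynomial.natDegree_le_of_dvd (p := (1 + Polynomial.X : Polynomial K) ^ (N + 1))
      ⟨S, hS⟩ hQne
    rw [Polynomial.natDegree_pow] at h1
    have h2 : (1 + Polynomial.X : Polynomial K).natDegree = 1 := by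
      rw [add_comm]
      exact Polynomial.natDegree_X_add_C 1
    rw [h2, hQconst] at h1
    omega

/-- the filtration -/
noncomputable def Fl (J : Ideal (R K)) (x : R K) (j : ℕ) : Ideal (R K) := Ideal.span {x ^ j} ⊔ J

lemma le_Fl {J : Ideal (R K)} {x : R K} {j : ℕ} : J ≤ Fl J x j := le_sup_right

lemma mem_Fl {J : Ideal (R K)} {x : R K} {j : ℕ} {s : R K} :
    s ∈ Fl J x j ↔ ∃ r, s - x ^ j * r ∈ J := by
  rw [Fl, Submodule.mem_sup]
  constructor
  · rintro ⟨y, hy, z, hz, rfl⟩
    rw [Ideal.mem_span_singleton] at hy
    obtain ⟨r, rfl⟩ := hy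
    exact ⟨r, by rwa [add_sub_cancel_left]⟩
  · rintro ⟨r, hr⟩
    exact ⟨x ^ j * r, Ideal.mem_span_singleton.2 (Dvd.intro _ rfl), _, hr, by ring⟩

lemma pow_mul_mem_Fl {J : Ideal (R K)} {x : R K} {j k : ℕ} (h : j ≤ k) (s : R K) :
    x ^ k * s ∈ Fl J x j := by
  rw [mem_Fl]
  refine ⟨x ^ (k - j) * s, ?_⟩
  rw [← mul_assoc, ← pow_add, Nat.add_sub_cancel' h, sub_self]
  exact J.zero_mem

lemma Fl_mul {J : Ideal (R K)} {x : R K} {j : ℕ} (c : ℕ) {s : R K} (h : s ∈ Fl J x j) :
    x ^ c * s ∈ Fl J x (j + c) := by
  rw [mem_Fl] at h ⊢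
  obtain ⟨r, hr⟩ := h
  refine ⟨r, ?_⟩
  have e : x ^ c * s - x ^ (j + c) * r = x ^ c * (s - x ^ j * r) := by rw [pow_add]; ring
  rw [e]
  exact J.mul_mem_left _ hr

lemma Fl_anti {J : Ideal (R K)} {x : R K} {j k : ℕ} (h : j ≤ k) : Fl J x k ≤ Fl J x j := by
  intro s hs
  rw [mem_Fl] at hs ⊢
  obtain ⟨r, hr⟩ := hs
  refine ⟨x ^ (k - j) * r, ?_⟩
  rwa [← mul_assoc, ← pow_add, Nat.add_sub_cancel' h]

/-- homogeneous ideals -/
def Hg (J : Ideal (R K)) : Prop := ∀ s ∈ J, ∀ n, homogeneousComponent n s ∈ J

lemma mem_Fl_hom {J : Ideal (R K)} (hJ : Hg J) {x : R K} (hx : x.IsHomogeneous 1) {i j : ℕ}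
    {s : R K} (hs : s.IsHomogeneous i) (h : s ∈ Fl J x j) :
    ∃ r : R K, r.IsHomogeneous (i - j) ∧ (i < j → r = 0) ∧ s - x ^ j * r ∈ J := by
  rw [mem_Fl] at h
  obtain ⟨r, hr⟩ := h
  refine ⟨hc j i r, hc_hom r, fun h => hc_zero h r, ?_⟩
  have h1 := hJ _ hr i
  have hxj : (x ^ j).IsHomogeneous j := by
    have := hx.pow j
    rwa [one_mul] at this
  rw [map_sub, comp_self hs, mul_comm (x ^ j) r, comp_mul hxj, mul_comm _ (x ^ j)] at h1
  exact h1

/-- **Semicontinuity.** -/
theorem semicont {J : Ideal (R K)} (hJ : Hg J) {x w : R K} (hx : x.IsHomogeneous 1) {i N : ℕ}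
    (hgr : ∀ a : ℕ → R K, (∀ j, (a j).IsHomogeneous (i - j)) → (∀ j, i < j → a j = 0) →
      (∀ j, ∑ k ∈ Finset.range (j + 1), (N.choose k : R K) * w ^ (N - k) * (x ^ j * a (j - k))
        ∈ Fl J x (j + 1)) → ∀ j, x ^ j * a j ∈ Fl J x (j + 1))
    (U : Polynomial (R K)) (hU : ∀ k, (U.coeff k).IsHomogeneous i)
    (hker : ∀ k, ((Polynomial.C w + Polynomial.C x * Polynomial.X) ^ N * U).coeff k ∈ J) :
    ∀ k, U.coeff k ∈ J := by
  classical
  set V : Polynomial (R K) := Polynomial.X ^ (i + 1) * U with hV
  have hVc : ∀ k, (V.coeff k).IsHomogeneous i := by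
    intro k
    rw [hV, Polynomial.coeff_X_pow_mul']
    split_ifs
    · exact hU _
    · exact isHomogeneous_zero _ _ _
  -- the kernel condition for `V`
  have hVker : ∀ n, ∑ k ∈ Finset.range (N + 1), (N.choose k : R K) * w ^ (N - k) *
      (x ^ k * (if k ≤ n then V.coeff (n - k) else 0)) ∈ J := by
    intro n
    have h1 : ((Polynomial.C w + Polynomial.C x * Polynomial.X) ^ N * V).coeff n ∈ J := by
      have e : (Polynomial.C w + Polynomial.C x * Polynomial.X) ^ N * V
          = Polynomial.X ^ (i + 1) *
            ((Polynomial.C w + Polynomial.C x * Polynomial.X) ^ N * U) := by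
        rw [hV]; ring
      rw [e, Polynomial.coeff_X_pow_mul']
      split_ifs
      · exact hker _
      · exact J.zero_mem
    have h2 : ((Polynomial.C w + Polynomial.C x * Polynomial.X) ^ N * V).coeff n
        = ∑ k ∈ Finset.range (N + 1), (N.choose k : R K) * w ^ (N - k) *
      (x ^ k * (if k ≤ n then V.coeff (n - k) else 0)) := by
      rw [add_comm, add_pow, Finset.sum_mul, Polynomial.finsetSum_coeff]
      refine Finset.sum_congr rfl fun k _ => ?_
      have e : (Polynomial.C x * Polynomial.X) ^ k * Polynomial.C w ^ (N - k)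
          * (N.choose k : Polynomial (R K)) * V
          = Polynomial.C ((N.choose k : R K) * w ^ (N - k) * x ^ k) * (Polynomial.X ^ k * V) := by
        rw [mul_pow, ← Polynomial.C_pow, ← Polynomial.C_pow]
        simp only [Polynomial.C_mul, map_natCast]
        ring
      rw [e, Polynomial.coeff_C_mul, Polynomial.coeff_X_pow_mul']
      ring
    rwa [h2] at h1
  have key : ∀ s, (∀ k, V.coeff k ∈ Fl J x (k - s)) → ∀ k, V.coeff k ∈ Fl J x k := by
    intro s
    induction s with
    | zero =>
      intro h k
      exact h k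
    | succ s ih =>
      intro h
      apply ih
      have h1 : ∀ j, ∃ r : R K, r.IsHomogeneous (i - j) ∧ (i < j → r = 0) ∧
          V.coeff (s + 1 + j) - x ^ j * r ∈ J := by
        intro j
        apply mem_Fl_hom hJ hx (hVc _)
        have := h (s + 1 + j)
        rwa [Nat.add_sub_cancel_left] at this
      choose a ha ha0 haJ using h1
      have h2 := hgr a ha ha0 (by
        intro j
        have h3 := hVker (s + 1 + j)
        -- compare the sums
        have h4 : ∀ k, (N.choose k : R K) * w ^ (N - k) * (x ^ k *
            (if k ≤ s + 1 + j then V.coeff (s + 1 + j - k) else 0))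
            - (if k ≤ j then (N.choose k : R K) * w ^ (N - k) * (x ^ j * a (j - k)) else 0)
            ∈ Fl J x (j + 1) := by
          intro k
          by_cases hk : k ≤ j
          · rw [if_pos hk, if_pos (by omega)]
            have h5 := haJ (j - k)
            rw [show s + 1 + (j - k) = s + 1 + j - k by omega] at h5
            have e : (N.choose k : R K) * w ^ (N - k) * (x ^ k * V.coeff (s + 1 + j - k))
                - (N.choose k : R K) * w ^ (N - k) * (x ^ j * a (j - k))
                = (N.choose k : R K) * w ^ (N - k) * x ^ k *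
                  (V.coeff (s + 1 + j - k) - x ^ (j - k) * a (j - k)) := by
              have e2 : x ^ j = x ^ k * x ^ (j - k) := by
                rw [← pow_add, Nat.add_sub_cancel' hk]
              rw [e2]; ring
            rw [e]
            exact le_Fl (J.mul_mem_left _ h5)
          · rw [if_neg hk, sub_zero]
            push Not at hk
            apply Ideal.mul_mem_left
            exact pow_mul_mem_Fl (by omega) _
        have h5 := Ideal.sum_mem (Fl J x (j + 1)) (t := Finset.range (N + 1)) fun k _ => h4 k
        rw [Finset.sum_sub_distrib] at h5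
        have h6 := Ideal.sub_mem _ (le_Fl (J := J) (x := x) (j := j + 1) h3) h5
        rw [sub_sub_cancel] at h6
        -- the two sums agree
        have h7 : ∑ k ∈ Finset.range (N + 1),
            (if k ≤ j then (N.choose k : R K) * w ^ (N - k) * (x ^ j * a (j - k)) else 0)
            = ∑ k ∈ Finset.range (j + 1),
              (N.choose k : R K) * w ^ (N - k) * (x ^ j * a (j - k)) := by
          have h8 : ∀ M, N + 1 ≤ M → j + 1 ≤ M → ∑ k ∈ Finset.range (N + 1),
            (if k ≤ j then (N.choose k : R K) * w ^ (N - k) * (x ^ j * a (j - k)) else 0)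
            = ∑ k ∈ Finset.range M,
            (if k ≤ j then (N.choose k : R K) * w ^ (N - k) * (x ^ j * a (j - k)) else 0) := by
            intro M hM _
            apply Finset.sum_subset (Finset.range_mono hM)
            intro k _ hk
            rw [Finset.mem_range, not_lt] at hk
            rw [Nat.choose_eq_zero_of_lt (by omega : N < k)]
            simp
          have h9 : ∀ M, j + 1 ≤ M → ∑ k ∈ Finset.range (j + 1),
              (N.choose k : R K) * w ^ (N - k) * (x ^ j * a (j - k)) = ∑ k ∈ Finset.range M,
            (if k ≤ j then (N.choose k : R K) * w ^ (N - k) * (x ^ j * a (j - k)) else 0) := by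
            intro M hM
            rw [← Finset.sum_subset (Finset.range_mono hM)]
            · refine Finset.sum_congr rfl fun k hk => ?_
              rw [Finset.mem_range] at hk
              rw [if_pos (by omega)]
            · intro k _ hk
              rw [Finset.mem_range, not_lt] at hk
              rw [if_neg (by omega)]
          rw [h8 (max (N + 1) (j + 1)) (le_max_left _ _) (le_max_right _ _),
            h9 (max (N + 1) (j + 1)) (le_max_right _ _)]
        rwa [h7] at h6)
      intro k
      rcases Nat.lt_or_ge s k with hk | hk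
      · obtain ⟨j, rfl⟩ : ∃ j, k = s + 1 + j := ⟨k - (s + 1), by omega⟩
        rw [show s + 1 + j - s = j + 1 by omega]
        have h3 := Ideal.add_mem _ (le_Fl (J := J) (x := x) (j := j + 1) (haJ j)) (h2 j)
        rwa [sub_add_cancel] at h3
      · rw [Nat.sub_eq_zero_of_le hk, mem_Fl]
        exact ⟨V.coeff k, by rw [pow_zero, one_mul, sub_self]; exact J.zero_mem⟩
  have h1 := key (V.natDegree) (by
    intro k
    rcases Nat.lt_or_ge V.natDegree k with hk | hk
    · rw [Polynomial.coeff_eq_zero_of_natDegree_lt hk]
      exact Ideal.zero_mem _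
    · rw [Nat.sub_eq_zero_of_le hk, mem_Fl]
      exact ⟨V.coeff k, by rw [pow_zero, one_mul, sub_self]; exact J.zero_mem⟩)
  intro k
  have h2 := Fl_anti (J := J) (x := x) (by omega : i + 1 ≤ i + 1 + k) (h1 (i + 1 + k))
  have h3 : V.coeff (i + 1 + k) = U.coeff k := by
    rw [hV, add_comm (i + 1) k, Polynomial.coeff_X_pow_mul]
  rw [h3] at h2
  obtain ⟨r, _, hr0, hr⟩ := mem_Fl_hom hJ hx (hU k) h2
  rw [hr0 (by omega), mul_zero, sub_zero] at hr
  exact hr

end Pool.Agent.H868.NR
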