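import Pool.Agent.H868.NR.Block

/-!
Injectivity on the strings which come from the line `m = 0`.
-/

namespace Pool.Agent.H868.NR

set_option maxHeartbeats 400000

open MvPolynomial
open Pool.Agent.Helper15K9.IC (R)
open Pool.Agent.TH61.SL (hc comp_mul hc_zero hc_hom comp_self comp_ne)
open Pool.Agent.W515.SLP (AnnP Deg annP_of_gt annP_of_homog)
open TH130CI (gor mem_gor gor_homog)

variable {K : Type*} [Field K]

/-- the counting argument -/
lemma count [CharZero K] {N p q n : ℕ} {A : Polynomial K} (hpq : p ≤ q) (hqn : q + 1 ≤ n)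
    (h1 : p + q + 1 ≤ n) (h2 : n ≤ p + q + N + 1)
    (hA : ∀ j, A.coeff j ≠ 0 → p ≤ j ∧ j ≤ q)
    (hP : ∀ j, n - 1 - q ≤ j → j ≤ n - 1 - p → ((1 + Polynomial.X) ^ N * A).coeff j = 0) :
    A = 0 := by
  classical
  have h3 : (1 + Polynomial.X) ^ N * A = 0 := by
    apply sparse N _ (Dvd.intro _ rfl)
    have h4 : ((1 + Polynomial.X) ^ N * A).support
        ⊆ Finset.Icc p (q + N) \ Finset.Icc (n - 1 - q) (n - 1 - p) := by
      intro j hj
      rw [Polynomial.mem_support_iff] at hj
      rw [Finset.mem_sdiff, Finset.mem_Icc, Finset.mem_Icc]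
      refine ⟨?_, fun h => hj (hP j h.1 h.2)⟩
      rw [Polynomial.coeff_mul] at hj
      obtain ⟨⟨k, l⟩, hkl, hne⟩ := Finset.exists_ne_zero_of_sum_ne_zero hj
      rw [Finset.HasAntidiagonal.mem_antidiagonal] at hkl
      have h5 := hA l (right_ne_zero_of_mul hne)
      have h6 : k ≤ N := by
        by_contra hlt
        push Not at hlt
        apply left_ne_zero_of_mul hne
        apply Polynomial.coeff_eq_zero_of_natDegree_lt
        refine lt_of_le_of_lt Polynomial.natDegree_pow_le ?_
        have h7 : (1 + Polynomial.X : Polynomial K).natDegree ≤ 1 := by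
          rw [add_comm]
          exact (Polynomial.natDegree_X_add_C 1).le
        calc N * (1 + Polynomial.X : Polynomial K).natDegree ≤ N * 1 := Nat.mul_le_mul_left _ h7
          _ < k := by omega
      simp only at hkl
      omega
    refine (Finset.card_le_card h4).trans ?_
    have h5 : Finset.Icc (n - 1 - q) (n - 1 - p) ⊆ Finset.Icc p (q + N) := by
      intro j hj
      rw [Finset.mem_Icc] at hj ⊢
      omega
    rw [Finset.card_sdiff_of_subset h5, Nat.card_Icc, Nat.card_Icc]
    omega
  have h4 : ((1 + Polynomial.X) ^ N : Polynomial K) ≠ 0 := by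
    apply pow_ne_zero
    intro h
    have := congrArg (fun p => Polynomial.coeff p 0) h
    simp at this
  exact (mul_eq_zero.1 h3).resolve_left h4

namespace ND

variable (T : ND K)

theorem stepQ [CharZero K] (hSp : T.Sp) {i N : ℕ} (hN : 2 * i + N = T.D)
    (a : ℕ → R K) (ha : ∀ j, (a j).IsHomogeneous (i - j)) (ha0 : ∀ j, i < j → a j = 0)
    (hT : ∀ j, ∑ k ∈ Finset.range (j + 1), (N.choose k : R K) * T.w ^ (N - k) *
      (T.x ^ j * a (j - k)) ∈ Fl T.J T.x (j + 1)) (j : ℕ) :
    T.x ^ (max j 2) * a j ∈ Fl T.J T.x (max j 2 + 1) := by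
  classical
  -- the coefficients
  have h1 : ∀ j, ∃ (α : K) (r r' : R K), (i < j → α = 0) ∧
      a j = C α * T.w ^ (i - j) + T.x * r + T.m * r' := by
    intro j
    by_cases hj : i < j
    · exact ⟨0, 0, 0, fun _ => rfl, by rw [ha0 j hj, C_0]; ring⟩
    · obtain ⟨α, r, r', h⟩ := hSp _ _ (ha j)
      exact ⟨α, r, r', fun h => absurd h hj, h⟩
  choose α r r' hα0 hα using h1
  -- reduction to the coefficients
  have hred : ∀ (J' j : ℕ), 2 ≤ J' → T.x ^ J' * a j - C (α j) * (T.x ^ J' * T.w ^ (i - j))
      ∈ Fl T.J T.x (J' + 1) := by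
    intro J' j hJ'
    have e : T.x ^ J' * a j - C (α j) * (T.x ^ J' * T.w ^ (i - j))
        = T.x ^ (J' + 1) * r j + T.x ^ J' * (T.m * r' j) := by
      rw [hα j, pow_succ]; ring
    rw [e]
    exact Ideal.add_mem _ (pow_mul_mem_Fl le_rfl _) (le_Fl (T.xm_mem hJ' _))
  by_contra hcon
  -- the last index
  set S : Finset ℕ := (Finset.range (i + 1)).filter
    (fun j => α j ≠ 0 ∧ ¬ T.E (max j 2) (i - j)) with hS
  have hSne : S.Nonempty := by
    refine ⟨j, ?_⟩
    have h2 : α j ≠ 0 ∧ ¬ T.E (max j 2) (i - j) := by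
      have h3 := hred (max j 2) j (le_max_right _ _)
      constructor
      · intro h0
        rw [h0, C_0, zero_mul, sub_zero] at h3
        exact hcon h3
      · intro hE
        apply hcon
        have h4 := Ideal.add_mem _ h3 (Ideal.mul_mem_left _ (C (α j)) hE)
        rwa [sub_add_cancel] at h4
    rw [hS, Finset.mem_filter, Finset.mem_range]
    refine ⟨?_, h2⟩
    by_contra hlt
    exact h2.1 (hα0 j (by omega))
  obtain ⟨j0, hj0, hmax⟩ := S.exists_max_image id hSne
  rw [hS, Finset.mem_filter, Finset.mem_range] at hj0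
  obtain ⟨hj0i, hαj0, hEj0⟩ := hj0
  have hmax' : ∀ j, j0 < j → α j ≠ 0 → T.E (max j 2) (i - j) := by
    intro j hj hαj
    by_contra hE
    have h2 : j ∈ S := by
      rw [hS, Finset.mem_filter, Finset.mem_range]
      refine ⟨?_, hαj, hE⟩
      by_contra hlt
      exact hαj (hα0 j (by omega))
    have := hmax j h2
    simp only [id] at this
    omega
  -- the block
  have hex : ∃ n, T.E n (i - j0) := ⟨T.D + 1, T.E_large (by omega)⟩
  obtain ⟨n, hn⟩ : ∃ n, n = Nat.find hex := ⟨_, rfl⟩
  have hnE : T.E n (i - j0) := by rw [hn]; exact Nat.find_spec hex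
  have hnmin : ∀ n', n' < n → ¬ T.E n' (i - j0) := by
    intro n' h'
    rw [hn] at h'
    exact Nat.find_min hex h'
  have hn3 : max j0 2 < n := by
    by_contra hge
    push Not at hge
    exact hEj0 (T.E_left hge hnE)
  have hj0n : j0 < n := lt_of_le_of_lt (le_max_left _ _) hn3
  have hn3' : 3 ≤ n := lt_of_le_of_lt (le_max_right _ _) hn3
  have hexa : ∃ k, T.E n k := ⟨_, hnE⟩
  have hexb : ∃ k, T.E (n - 1) k := ⟨T.D + 1, T.E_large (by omega)⟩
  obtain ⟨a', ha'⟩ : ∃ a', a' = Nat.find hexa := ⟨_, rfl⟩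
  obtain ⟨b', hb'⟩ : ∃ b', b' = Nat.find hexb := ⟨_, rfl⟩
  have hEa : ∀ k, T.E n k ↔ a' ≤ k := by
    intro k
    rw [ha']
    exact ⟨fun h => Nat.find_min' hexa h, fun h => T.E_right h (Nat.find_spec hexa)⟩
  have hEb : ∀ k, T.E (n - 1) k ↔ b' ≤ k := by
    intro k
    rw [hb']
    exact ⟨fun h => Nat.find_min' hexb h, fun h => T.E_right h (Nat.find_spec hexb)⟩
  have hak : a' ≤ i - j0 := (hEa _).1 hnE
  have hbk : i - j0 < b' := by
    by_contra hge
    push Not at hge
    exact hnmin (n - 1) (by omega) ((hEb _).2 hge)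
  have hblock := T.block hSp hn3' hEa hEb (by omega)
  -- the polynomial
  obtain ⟨A, hA⟩ : ∃ A : Polynomial K, A = ∑ j ∈ (Finset.range (i + 1)).filter
    (fun j => a' ≤ i - j ∧ i - j < b' ∧ j < n), Polynomial.monomial j (α j) := ⟨_, rfl⟩
  have hAc : ∀ j, A.coeff j = if j < i + 1 ∧ (a' ≤ i - j ∧ i - j < b' ∧ j < n) then α j else 0 := by
    intro j
    rw [hA, Polynomial.finsetSum_coeff]
    simp only [Polynomial.coeff_monomial]
    rw [Finset.sum_ite_eq' _ j]
    simp only [Finset.mem_filter, Finset.mem_range]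
  have hA0 : A = 0 := by
    refine count (N := N) (p := i + 1 - b') (q := min (i - a') (n - 1)) (n := n) ?_ ?_ ?_ ?_ ?_ ?_
    · omega
    · omega
    · omega
    · omega
    · intro j hj
      rw [hAc] at hj
      split_ifs at hj with h
      · omega
      · exact absurd rfl hj
    · intro j' hj1 hj2
      have hjn : j' < n := by omega
      have hjD : j' ≤ T.D - i := by omega
      have hk1 : a' ≤ T.D - i - j' := by omega
      have hk2 : T.D - i - j' < b' := by omega
      obtain ⟨J', hJ'⟩ : ∃ J', J' = max j' 2 := ⟨_, rfl⟩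
      obtain ⟨k', hk'⟩ : ∃ k', k' = T.D - i - j' := ⟨_, rfl⟩
      have hnE' : ¬ T.E J' k' := by
        intro h
        have h2 := T.E_left (by omega : J' ≤ n - 1) h
        have := (hEb _).1 h2
        omega
      -- the relation
      have h2 := Fl_mul (J' - j') (hT j')
      rw [show j' + 1 + (J' - j') = J' + 1 by omega, Finset.mul_sum] at h2
      have h3 : ∀ k ∈ Finset.range (j' + 1), T.x ^ (J' - j') * ((N.choose k : R K) *
          T.w ^ (N - k) * (T.x ^ j' * a (j' - k)))
          - C ((N.choose k : K) * A.coeff (j' - k)) * (T.x ^ J' * T.w ^ k')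
          ∈ Fl T.J T.x (J' + 1) := by
        intro k hk
        rw [Finset.mem_range] at hk
        rcases Nat.lt_or_ge N k with hNk | hNk
        · rw [Nat.choose_eq_zero_of_lt hNk]
          simp
        have hxJ : T.x ^ J' = T.x ^ (J' - j') * T.x ^ j' := by
          rw [← pow_add, Nat.sub_add_cancel (by omega)]
        have e1 : T.x ^ (J' - j') * ((N.choose k : R K) * T.w ^ (N - k) *
            (T.x ^ j' * a (j' - k))) = (N.choose k : R K) * T.w ^ (N - k) *
              (T.x ^ J' * a (j' - k)) := by rw [hxJ]; ring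
        rw [e1]
        have h4 := Ideal.mul_mem_left _ ((N.choose k : R K) * T.w ^ (N - k))
          (hred J' (j' - k) (by omega))
        rcases Nat.lt_or_ge i (j' - k) with hi | hi
        · rw [hAc, if_neg (by omega), mul_zero, C_0, zero_mul, sub_zero]
          rw [hα0 _ hi, C_0, zero_mul, sub_zero] at h4
          exact h4
        have hwk : T.w ^ k' = T.w ^ (N - k) * T.w ^ (i - (j' - k)) := by
          rw [← pow_add]; congr 1; omega
        have e2 : (N.choose k : R K) * T.w ^ (N - k) * (T.x ^ J' * a (j' - k))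
            - C ((N.choose k : K) * A.coeff (j' - k)) * (T.x ^ J' * T.w ^ k')
            = (N.choose k : R K) * T.w ^ (N - k) * (T.x ^ J' * a (j' - k)
              - C (α (j' - k)) * (T.x ^ J' * T.w ^ (i - (j' - k))))
              + C ((N.choose k : K) * (α (j' - k) - A.coeff (j' - k)))
                * (T.x ^ J' * T.w ^ k') := by
          rw [C_mul, C_mul, C_sub, hwk]
          simp only [map_natCast]
          ring
        rw [e2]
        refine Ideal.add_mem _ h4 ?_
        rw [hAc]
        split_ifs with hin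
        · rw [sub_self, mul_zero, C_0, zero_mul]
          exact Ideal.zero_mem _
        · by_cases h0 : α (j' - k) = 0
          · rw [h0, sub_zero, mul_zero, C_0, zero_mul]
            exact Ideal.zero_mem _
          · exfalso
            apply hnE'
            have h5 : j0 < j' - k := by omega
            have h6 := hmax' _ h5 h0
            exact T.E_right (by omega) (T.E_left (by omega) h6)
      have h4 := Ideal.sub_mem _ h2 (Ideal.sum_mem _ h3)
      rw [Finset.sum_sub_distrib, sub_sub_cancel, ← Finset.sum_mul, ← map_sum] at h4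
      have h5 : ((1 + Polynomial.X) ^ N * A).coeff j'
          = ∑ k ∈ Finset.range (j' + 1), (N.choose k : K) * A.coeff (j' - k) := by
        rw [Polynomial.coeff_mul, Finset.Nat.sum_antidiagonal_eq_sum_range_succ
          (fun k l => ((1 + Polynomial.X) ^ N : Polynomial K).coeff k * A.coeff l)]
        refine Finset.sum_congr rfl fun k _ => ?_
        rw [Polynomial.coeff_one_add_X_pow]
      rw [← h5] at h4
      by_contra hne
      apply hnE'
      have h6 := Ideal.mul_mem_left _ (C (((1 + Polynomial.X) ^ N * A).coeff j')⁻¹) h4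
      rwa [← mul_assoc, ← C_mul, inv_mul_cancel₀ hne, C_1, one_mul] at h6
  have h2 := hAc j0
  rw [hA0, Polynomial.coeff_zero, if_pos ⟨hj0i, hak, hbk, hj0n⟩] at h2
  exact hαj0 h2.symm

end ND

end Pool.Agent.H868.NR
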