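import Pool.Agent.H868.NR.StepQ

/-!
The remaining strings of a double line.
-/

namespace Pool.Agent.H868.NR

set_option maxHeartbeats 400000

open MvPolynomial
open Pool.Agent.Helper15K9.IC (R)
open Pool.Agent.TH61.SL (hc comp_mul hc_zero hc_hom comp_self comp_ne)
open Pool.Agent.W515.SLP (AnnP Deg annP_of_gt annP_of_homog)
open Pool.Agent.W695.SLP (Good)
open TH130CI (gor mem_gor gor_homog)

variable {K : Type*} [Field K]

/-- the functional `s ↦ φ (q s)` -/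
noncomputable def mulF (φ : R K →ₗ[K] K) (q : R K) : R K →ₗ[K] K := φ ∘ₗ LinearMap.mulLeft K q

lemma mulF_apply (φ : R K →ₗ[K] K) (q s : R K) : mulF φ q s = φ (q * s) := rfl

lemma mem_gor_mulF {φ : R K →ₗ[K] K} {q s : R K} : s ∈ gor (mulF φ q) ↔ q * s ∈ gor φ := by
  constructor
  · intro h v
    have := h v
    rwa [mulF_apply, ← mul_assoc] at this
  · intro h v
    rw [mulF_apply, ← mul_assoc]
    exact h v

lemma deg_mulF {φ : R K →ₗ[K] K} {D : ℕ} (hφ : Deg φ D) {q : R K} {e : ℕ}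
    (hq : q.IsHomogeneous e) (he : e ≤ D) : Deg (mulF φ q) (D - e) := by
  intro j hj g hg
  rw [mulF_apply]
  exact hφ (e + j) (by omega) _ (hq.mul hg)

lemma good_mem {φ : R K →ₗ[K] K} {d k : ℕ} (hφ : Deg φ d) (hk : 2 * k ≤ d) {w : R K}
    (hG : Good φ d k w) {s : R K} (hs : s.IsHomogeneous k) (h : w ^ (d - 2 * k) * s ∈ gor φ) :
    s ∈ gor φ :=
  annP_of_homog hφ (by omega) hs (hG s hs (fun v _ => h v))

lemma cancel_nat [CharZero K] {I : Ideal (R K)} {n : ℕ} (hn : n ≠ 0) {s : R K}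
    (h : (n : R K) * s ∈ I) : s ∈ I := by
  have h1 := I.mul_mem_left (C ((n : K)⁻¹)) h
  have h2 : (C ((n : K)⁻¹) : R K) * ((n : R K) * s) = s := by
    have h3 : (n : R K) = C (n : K) := (map_natCast C n).symm
    rw [h3, ← mul_assoc, ← C_mul, inv_mul_cancel₀ (Nat.cast_ne_zero.2 hn), C_1, one_mul]
  rwa [h2] at h1

namespace ND

variable (T : ND K)

lemma mem_fl1 {s : R K} : s ∈ Fl T.J T.x 1 ↔ T.x * T.m * s ∈ T.J := by
  refine ⟨fun h => ?_, T.h2 s⟩
  rw [mem_Fl] at h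
  obtain ⟨r, hr⟩ := h
  rw [pow_one] at hr
  have e : T.x * T.m * s = (T.x * T.m) * (s - T.x * r) + r * (T.x ^ 2 * T.m) := by ring
  rw [e]
  exact Ideal.add_mem _ (Ideal.mul_mem_left _ _ hr) (Ideal.mul_mem_left _ _ T.h1)

lemma x_mem {s : R K} (h : T.x * s ∈ Fl T.J T.x 2) : s ∈ Fl T.J T.x 1 := by
  rw [mem_Fl] at h
  obtain ⟨r, hr⟩ := h
  obtain ⟨r', hr'⟩ := T.h4 (s - T.x * r) (by
    rwa [show T.x * (s - T.x * r) = T.x * s - T.x ^ 2 * r by ring])
  rw [mem_Fl]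
  refine ⟨r + T.m * r', ?_⟩
  rwa [show s - T.x ^ 1 * (r + T.m * r') = s - T.x * r - T.x * T.m * r' by ring]

lemma mem_J3 {s : R K} : s ∈ gor (mulF T.φ (T.x * T.m ^ 2)) ↔ T.m * s ∈ Fl T.J T.x 1 := by
  rw [mem_gor_mulF, T.mem_fl1]
  rw [show T.x * T.m ^ 2 * s = T.x * T.m * (T.m * s) by ring]

lemma mem_J2 {s : R K} : s ∈ gor (mulF T.φ (T.x * T.m)) ↔ s ∈ Fl T.J T.x 1 := by
  rw [mem_gor_mulF, T.mem_fl1]

lemma exists_b {s : R K} {n : ℕ} (hs : s.IsHomogeneous n) (h : T.x ^ 2 * s ∈ Fl T.J T.x 3) :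
    ∃ r b : R K, b.IsHomogeneous (n - 1) ∧ (n < 1 → b = 0) ∧ s - T.x * r - T.m * b ∈ T.J := by
  rw [mem_Fl] at h
  obtain ⟨r0, hr0⟩ := h
  obtain ⟨r1, hr1⟩ := T.h3 (s - T.x * r0) (by
    rwa [show T.x ^ 2 * (s - T.x * r0) = T.x ^ 2 * s - T.x ^ 3 * r0 by ring])
  refine ⟨hc 1 n r0, hc 1 n r1, hc_hom r1, fun h => hc_zero h r1, ?_⟩
  have h1 := T.hg _ hr1 n
  rw [map_sub, map_sub, comp_self hs, mul_comm T.x r0, mul_comm T.m r1, comp_mul T.hx,
    comp_mul T.hm, mul_comm _ T.x, mul_comm _ T.m] at h1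
  exact h1

variable {T}

section

variable {i N : ℕ} {a : ℕ → R K}

lemma eq0 (hT : ∀ j, ∑ k ∈ Finset.range (j + 1), (N.choose k : R K) * T.w ^ (N - k) *
      (T.x ^ j * a (j - k)) ∈ Fl T.J T.x (j + 1)) : T.w ^ N * a 0 ∈ Fl T.J T.x 1 := by
  have h := hT 0
  simpa using h

lemma eq1 (hT : ∀ j, ∑ k ∈ Finset.range (j + 1), (N.choose k : R K) * T.w ^ (N - k) *
      (T.x ^ j * a (j - k)) ∈ Fl T.J T.x (j + 1)) :
    T.w ^ N * a 1 + N * T.w ^ (N - 1) * a 0 ∈ Fl T.J T.x 1 := by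
  have h := hT 1
  apply T.x_mem
  have e : ∑ k ∈ Finset.range (1 + 1), (N.choose k : R K) * T.w ^ (N - k) *
      (T.x ^ 1 * a (1 - k)) = T.x * (T.w ^ N * a 1 + N * T.w ^ (N - 1) * a 0) := by
    rw [Finset.sum_range_succ, Finset.sum_range_one]
    simp only [Nat.choose_zero_right, Nat.choose_one_right, Nat.sub_zero, Nat.sub_self,
      Nat.cast_one]
    ring
  rwa [e] at h

lemma eq2 (hmx : T.m = T.x) (hT : ∀ j, ∑ k ∈ Finset.range (j + 1), (N.choose k : R K) *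
      T.w ^ (N - k) * (T.x ^ j * a (j - k)) ∈ Fl T.J T.x (j + 1)) :
    T.w ^ N * a 2 + N * T.w ^ (N - 1) * a 1 + (N.choose 2 : R K) * T.w ^ (N - 2) * a 0
      ∈ Fl T.J T.x 1 := by
  have h := hT 2
  rw [T.mem_fl1]
  have e : ∑ k ∈ Finset.range (2 + 1), (N.choose k : R K) * T.w ^ (N - k) *
      (T.x ^ 2 * a (2 - k)) = T.x * T.m * (T.w ^ N * a 2 + N * T.w ^ (N - 1) * a 1
        + (N.choose 2 : R K) * T.w ^ (N - 2) * a 0) := by
    rw [Finset.sum_range_succ, Finset.sum_range_succ, Finset.sum_range_one, hmx]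
    simp only [Nat.choose_zero_right, Nat.choose_one_right, Nat.sub_zero, Nat.sub_self,
      Nat.cast_one]
    rw [show 2 - 1 = 1 from rfl]
    ring
  rw [e, mem_Fl] at h
  obtain ⟨r, hr⟩ := h
  have h3 : T.x ^ 3 * r ∈ T.J := by
    have h1 := T.h1
    rw [hmx] at h1
    rw [show T.x ^ 3 * r = r * (T.x ^ 2 * T.x) by ring]
    exact Ideal.mul_mem_left _ _ h1
  have h4 := Ideal.add_mem _ hr h3
  rwa [sub_add_cancel] at h4

/-- the strings of the simple line -/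
theorem stepS [CharZero K] (hN : 2 * i + N = T.D) (hN1 : 1 ≤ N)
    (hG : ∀ k, 2 * k ≤ T.D - 3 → Good (mulF T.φ (T.x * T.m ^ 2)) (T.D - 3) k T.w)
    (ha : ∀ j, (a j).IsHomogeneous (i - j))
    (hT : ∀ j, ∑ k ∈ Finset.range (j + 1), (N.choose k : R K) * T.w ^ (N - k) *
      (T.x ^ j * a (j - k)) ∈ Fl T.J T.x (j + 1))
    (hQ : ∀ j, T.x ^ (max j 2) * a j ∈ Fl T.J T.x (max j 2 + 1)) (j : ℕ) :
    T.x ^ j * a j ∈ Fl T.J T.x (j + 1) := by
  rcases Nat.lt_or_ge j 2 with hj | hj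
  swap
  · have h := hQ j
    rwa [max_eq_left hj] at h
  obtain ⟨r0, b0, hb0, hb00, h0⟩ := T.exists_b (ha 0) (hQ 0)
  obtain ⟨r1, b1, hb1, hb10, h1⟩ := T.exists_b (ha 1) (hQ 1)
  have e0 := eq0 hT
  have e1 := eq1 hT
  have hxr : ∀ s, T.x * s ∈ Fl T.J T.x 1 := by
    intro s
    have := pow_mul_mem_Fl (J := T.J) (x := T.x) (le_refl 1) s
    rwa [pow_one] at this
  have h00 := le_Fl (x := T.x) (j := 1) h0
  have h11 := le_Fl (x := T.x) (j := 1) h1
  -- equations for `b0`, `b1`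
  have f0 : T.w ^ N * b0 ∈ gor (mulF T.φ (T.x * T.m ^ 2)) := by
    rw [T.mem_J3]
    have e : T.m * (T.w ^ N * b0) = T.w ^ N * a 0 - T.w ^ N * (a 0 - T.x * r0 - T.m * b0)
        - T.x * (T.w ^ N * r0) := by ring
    rw [e]
    exact Ideal.sub_mem _ (Ideal.sub_mem _ e0 (Ideal.mul_mem_left _ _ h00)) (hxr _)
  have f1 : T.w ^ N * b1 + N * T.w ^ (N - 1) * b0 ∈ gor (mulF T.φ (T.x * T.m ^ 2)) := by
    rw [T.mem_J3]
    have e : T.m * (T.w ^ N * b1 + N * T.w ^ (N - 1) * b0)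
        = (T.w ^ N * a 1 + N * T.w ^ (N - 1) * a 0)
          - (T.w ^ N * (a 1 - T.x * r1 - T.m * b1)
            + N * T.w ^ (N - 1) * (a 0 - T.x * r0 - T.m * b0))
          - T.x * (T.w ^ N * r1 + N * T.w ^ (N - 1) * r0) := by ring
    rw [e]
    exact Ideal.sub_mem _ (Ideal.sub_mem _ e1 (Ideal.add_mem _ (Ideal.mul_mem_left _ _ h11)
      (Ideal.mul_mem_left _ _ h00))) (hxr _)
  have hq3 : (T.x * T.m ^ 2).IsHomogeneous 3 := by
    have := T.hx.mul (T.hm.pow 2)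
    rwa [show 1 + 1 * 2 = 3 from rfl] at this
  have g1 : b1 ∈ gor (mulF T.φ (T.x * T.m ^ 2)) := by
    rcases Nat.lt_or_ge i 2 with hi | hi
    · rw [hb10 (by omega)]
      exact Ideal.zero_mem _
    apply good_mem (deg_mulF T.hφ hq3 (by omega)) (k := i - 2) (by omega) (hG _ (by omega))
    · rwa [show i - 1 - 1 = i - 2 by omega] at hb1
    · rw [show T.D - 3 - 2 * (i - 2) = N + 1 by omega]
      have e : T.w ^ (N + 1) * b1 = T.w * (T.w ^ N * b1 + N * T.w ^ (N - 1) * b0)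
          - N * (T.w ^ N * b0) := by
        have : T.w ^ N = T.w ^ (N - 1) * T.w := by rw [← pow_succ, Nat.sub_add_cancel hN1]
        rw [pow_succ, this]; ring
      rw [e]
      exact Ideal.sub_mem _ (Ideal.mul_mem_left _ _ f1) (Ideal.mul_mem_left _ _ f0)
  have g0 : b0 ∈ gor (mulF T.φ (T.x * T.m ^ 2)) := by
    rcases Nat.lt_or_ge i 1 with hi | hi
    · rw [hb00 (by omega)]
      exact Ideal.zero_mem _
    apply good_mem (deg_mulF T.hφ hq3 (by omega)) (k := i - 1) (by omega) (hG _ (by omega))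
    · exact hb0
    · rw [show T.D - 3 - 2 * (i - 1) = N - 1 by omega]
      apply cancel_nat (show N ≠ 0 by omega)
      have h2 := Ideal.sub_mem _ f1 (Ideal.mul_mem_left _ (T.w ^ N) g1)
      rwa [add_sub_cancel_left, mul_assoc] at h2
  rw [T.mem_J3] at g0 g1
  have k0 : a 0 ∈ Fl T.J T.x 1 := by
    have := Ideal.add_mem _ (Ideal.add_mem _ h00 (hxr r0)) g0
    rwa [show a 0 - T.x * r0 - T.m * b0 + T.x * r0 + T.m * b0 = a 0 by ring] at this
  have k1 : a 1 ∈ Fl T.J T.x 1 := by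
    have := Ideal.add_mem _ (Ideal.add_mem _ h11 (hxr r1)) g1
    rwa [show a 1 - T.x * r1 - T.m * b1 + T.x * r1 + T.m * b1 = a 1 by ring] at this
  interval_cases j
  · rwa [pow_zero, one_mul]
  · exact Fl_mul 1 k1

/-- the triple line -/
theorem stepC [CharZero K] (hmx : T.m = T.x) (hN : 2 * i + N = T.D) (hN1 : 1 ≤ N)
    (hG : ∀ k, 2 * k ≤ T.D - 2 → Good (mulF T.φ (T.x * T.m)) (T.D - 2) k T.w)
    (ha : ∀ j, (a j).IsHomogeneous (i - j)) (ha0 : ∀ j, i < j → a j = 0)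
    (hT : ∀ j, ∑ k ∈ Finset.range (j + 1), (N.choose k : R K) * T.w ^ (N - k) *
      (T.x ^ j * a (j - k)) ∈ Fl T.J T.x (j + 1)) (j : ℕ) :
    T.x ^ j * a j ∈ Fl T.J T.x (j + 1) := by
  rcases Nat.lt_or_ge j 3 with hj | hj
  swap
  · apply le_Fl
    have h1 := T.h1
    rw [hmx] at h1
    have e : T.x ^ j * a j = (T.x ^ (j - 3) * a j) * (T.x ^ 2 * T.x) := by
      have : T.x ^ j = T.x ^ (j - 3) * T.x ^ 3 := by rw [← pow_add, Nat.sub_add_cancel hj]
      rw [this]; ring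
    rw [e]
    exact Ideal.mul_mem_left _ _ h1
  have e0 := eq0 hT
  have e1 := eq1 hT
  have e2 := eq2 hmx hT
  have hq2 : (T.x * T.m).IsHomogeneous 2 := T.hx.mul T.hm
  have hwN : T.w ^ N = T.w ^ (N - 1) * T.w := by rw [← pow_succ, Nat.sub_add_cancel hN1]
  -- the elements of degree `D - 2 - k`
  have key : ∀ (k : ℕ) (s : R K), s.IsHomogeneous k → 2 * k ≤ T.D - 2 → 2 ≤ T.D →
      T.w ^ (T.D - 2 - 2 * k) * s ∈ Fl T.J T.x 1 → s ∈ Fl T.J T.x 1 := by
    intro k s hs hk hD h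
    rw [← T.mem_J2] at h ⊢
    exact good_mem (deg_mulF T.hφ hq2 hD) hk (hG _ hk) hs h
  -- a second form of the last relation
  have e2' : T.w * (N * T.w ^ (N - 1) * a 1 + (N.choose 2 : R K) * T.w ^ (N - 2) * a 0)
      = N * T.w ^ N * a 1 + (N.choose 2 : R K) * T.w ^ (N - 1) * a 0 := by
    rcases Nat.lt_or_ge N 2 with h2 | h2
    · have : N = 1 := by omega
      subst this
      simp
    · have h3 : T.w ^ (N - 1) = T.w ^ (N - 2) * T.w := by
        rw [← pow_succ]; congr 1; omega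
      rw [hwN, h3]; ring
  -- `a 2`
  have g2 : a 2 ∈ Fl T.J T.x 1 := by
    rcases Nat.lt_or_ge i 2 with hi | hi
    · rw [ha0 2 hi]
      exact Ideal.zero_mem _
    apply key (i - 2) _ (ha 2) (by omega) (by omega)
    rw [show T.D - 2 - 2 * (i - 2) = N + 2 by omega]
    have e : T.w ^ (N + 2) * a 2
        = T.w ^ 2 * (T.w ^ N * a 2 + N * T.w ^ (N - 1) * a 1
          + (N.choose 2 : R K) * T.w ^ (N - 2) * a 0)
          - N * T.w * (T.w ^ N * a 1 + N * T.w ^ (N - 1) * a 0)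
          + (N * N - (N.choose 2 : R K)) * (T.w ^ N * a 0) := by
      have e3 : T.w ^ 2 * (T.w ^ N * a 2 + N * T.w ^ (N - 1) * a 1
          + (N.choose 2 : R K) * T.w ^ (N - 2) * a 0)
          = T.w ^ (N + 2) * a 2 + T.w * (T.w * (N * T.w ^ (N - 1) * a 1
            + (N.choose 2 : R K) * T.w ^ (N - 2) * a 0)) := by
        rw [pow_add]; ring
      rw [e3, e2', hwN]; ring
    rw [e]
    exact Ideal.add_mem _ (Ideal.sub_mem _ (Ideal.mul_mem_left _ _ e2)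
      (Ideal.mul_mem_left _ _ e1)) (Ideal.mul_mem_left _ _ e0)
  have e3 : N * T.w ^ (N - 1) * a 1 + (N.choose 2 : R K) * T.w ^ (N - 2) * a 0
      ∈ Fl T.J T.x 1 := by
    have := Ideal.sub_mem _ e2 (Ideal.mul_mem_left _ (T.w ^ N) g2)
    rwa [show T.w ^ N * a 2 + N * T.w ^ (N - 1) * a 1
      + (N.choose 2 : R K) * T.w ^ (N - 2) * a 0 - T.w ^ N * a 2
      = N * T.w ^ (N - 1) * a 1 + (N.choose 2 : R K) * T.w ^ (N - 2) * a 0 by ring] at this
  -- `w ^ (N - 1) * a 0`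
  have e4 : T.w ^ (N - 1) * a 0 ∈ Fl T.J T.x 1 := by
    have h5 : N * N = N.choose 2 + (N.choose 2 + N) := by
      rw [Nat.choose_two_right]
      have h6 : N * (N - 1) / 2 * 2 = N * (N - 1) :=
        Nat.div_mul_cancel (Nat.even_mul_pred_self N).two_dvd
      have h7 : N * N = N * (N - 1) + N := by
        obtain ⟨M, rfl⟩ : ∃ M, N = M + 1 := ⟨N - 1, by omega⟩
        simp
        ring
      omega
    apply cancel_nat (n := N.choose 2 + N) (by omega)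
    have h6 := Ideal.sub_mem _ (Ideal.mul_mem_left _ (N : R K) e1)
      (Ideal.mul_mem_left _ T.w e3)
    rw [e2'] at h6
    have h7 : ((N * N : ℕ) : R K) = ((N.choose 2 + (N.choose 2 + N) : ℕ) : R K) := by rw [h5]
    push_cast at h7
    have e : (N : R K) * (T.w ^ N * a 1 + N * T.w ^ (N - 1) * a 0)
        - (N * T.w ^ N * a 1 + (N.choose 2 : R K) * T.w ^ (N - 1) * a 0)
        = ((N.choose 2 + N : ℕ) : R K) * (T.w ^ (N - 1) * a 0) := by
      push_cast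
      linear_combination (T.w ^ (N - 1) * a 0) * h7
    rwa [e] at h6
  have g1 : a 1 ∈ Fl T.J T.x 1 := by
    rcases Nat.lt_or_ge i 1 with hi | hi
    · rw [ha0 1 hi]
      exact Ideal.zero_mem _
    apply key (i - 1) _ (ha 1) (by omega) (by omega)
    rw [show T.D - 2 - 2 * (i - 1) = N by omega]
    have := Ideal.sub_mem _ e1 (Ideal.mul_mem_left _ (N : R K) e4)
    rwa [show T.w ^ N * a 1 + N * T.w ^ (N - 1) * a 0 - N * (T.w ^ (N - 1) * a 0)
      = T.w ^ N * a 1 by ring] at this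
  have g0 : a 0 ∈ Fl T.J T.x 1 := by
    rcases Nat.lt_or_ge N 2 with h2 | h2
    · have hN1' : N = 1 := by omega
      have := e4
      rw [hN1', Nat.sub_self, pow_zero, one_mul] at this
      exact this
    · apply key i _ (ha 0) (by omega) (by omega)
      rw [show T.D - 2 - 2 * i = N - 2 by omega]
      apply cancel_nat (n := N.choose 2) (Nat.choose_pos h2).ne'
      have := Ideal.sub_mem _ e3 (Ideal.mul_mem_left _ (N * T.w ^ (N - 1) : R K) g1)
      rwa [add_sub_cancel_left, mul_assoc] at this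
  interval_cases j
  · rwa [pow_zero, one_mul]
  · exact Fl_mul 1 g1
  · exact Fl_mul 2 g2

end

end ND

end Pool.Agent.H868.NR
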